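import Pool.Agent.Q100.Spec.Two
import Pool.Agent.H165R3.BPE

/-!
# Good sets from the pointwise ergodic theorem
-/

set_option autoImplicit false

open Filter Set Metric MeasureTheory
open scoped Topology

universe v

namespace Pool.Agent.Q100.Spec

variable {X : Type v} [MetricSpace X] [CompactSpace X] [MeasurableSpace X] [BorelSpace X]

omit [CompactSpace X] in
theorem invariants_symm (f : X ≃ₜ X) :
    MeasurableSpace.invariants (f.symm : X → X) = MeasurableSpace.invariants (f : X → X) := by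
  ext s
  rw [MeasurableSpace.measurableSet_invariants, MeasurableSpace.measurableSet_invariants]
  refine and_congr_right fun _ => ?_
  constructor
  · intro h
    conv_lhs => rw [← h]
    ext y
    simp
  · intro h
    conv_lhs => rw [← h]
    ext y
    simp

omit [CompactSpace X] [MeasurableSpace X] [BorelSpace X] in
theorem cont_bsum {f : X → X} (hf : Continuous f) {τ : X → ℝ} (hτ : Continuous τ) (i : ℕ) :
    Continuous (fun x => bsum f τ i x) := by
  unfold bsum
  exact continuous_finset_sum _ fun j _ => hτ.comp (hf.iterate j)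

/-- from the convergence of averages to linear lower bounds -/
theorem lower_of_tendsto {a : ℕ → ℝ} {g ε : ℝ} (hε : 0 < ε)
    (h : Tendsto (fun n : ℕ => (n : ℝ)⁻¹ * a n) atTop (𝓝 g)) :
    ∃ C : ℕ, ∀ j : ℕ, (g - ε) * j - C ≤ a j := by
  have h1 : ∀ᶠ n : ℕ in atTop, g - ε < (n : ℝ)⁻¹ * a n := h.eventually (lt_mem_nhds (by linarith))
  obtain ⟨M, hM⟩ := eventually_atTop.1 (h1.and (eventually_ge_atTop 1))
  obtain ⟨C, hC⟩ := exists_nat_ge (∑ j ∈ Finset.range M, |(g - ε) * j - a j|)
  refine ⟨C, fun j => ?_⟩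
  rcases Nat.lt_or_ge j M with hj | hj
  · have h2 : |(g - ε) * j - a j| ≤ ∑ j ∈ Finset.range M, |(g - ε) * j - a j| :=
      Finset.single_le_sum (f := fun j : ℕ => |(g - ε) * j - a j|) (fun _ _ => abs_nonneg _)
        (Finset.mem_range.2 hj)
    have h3 := le_abs_self ((g - ε) * j - a j)
    linarith
  · obtain ⟨h2, h3⟩ := hM j hj
    have hj0 : (0 : ℝ) < j := by exact_mod_cast h3
    have h4 : (g - ε) * j < a j := by
      rw [← div_eq_inv_mul, lt_div_iff₀ hj0] at h2
      exact h2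
    have h5 : (0 : ℝ) ≤ C := Nat.cast_nonneg C
    linarith

/-- the set of the points with linear drift of sign `σ` in both directions -/
def GoodSet (f : X ≃ₜ X) (τ : X → ℝ) (κ σ : ℝ) (C : ℕ) (W : Set X) : Set X :=
  {x | x ∈ W ∧ ∀ j : ℕ, κ / 8 * j - C ≤ σ * (bsum f τ j x + j * (σ * (κ / 2))) ∧
    κ / 8 * j - C ≤ σ * (bsum f.symm τ j (f.symm x) + j * (σ * (κ / 2)))}

omit [CompactSpace X] in
theorem goodSet_meas (f : X ≃ₜ X) {τ : X → ℝ} (hτ : Continuous τ) (κ σ : ℝ) (C : ℕ) {W : Set X}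
    (hW : MeasurableSet W) : MeasurableSet (GoodSet f τ κ σ C W) := by
  have h1 : GoodSet f τ κ σ C W = W ∩ ⋂ j : ℕ,
      ({x | κ / 8 * j - C ≤ σ * (bsum f τ j x + j * (σ * (κ / 2)))} ∩
      {x | κ / 8 * j - C ≤ σ * (bsum f.symm τ j (f.symm x) + j * (σ * (κ / 2)))}) := by
    ext x
    simp [GoodSet]
  rw [h1]
  refine hW.inter (MeasurableSet.iInter fun j => MeasurableSet.inter ?_ ?_)
  · exact (isClosed_le continuous_const (continuous_const.mul
      ((cont_bsum f.continuous hτ j).add continuous_const))).measurableSet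
  · exact (isClosed_le continuous_const (continuous_const.mul
      (((cont_bsum f.symm.continuous hτ j).comp f.symm.continuous).add
        continuous_const))).measurableSet

theorem exists_goodSet {μ : Measure X} [IsProbabilityMeasure μ] (f : X ≃ₜ X)
    (hμ : MeasurePreserving f μ μ) {τ : X → ℝ} (hτ : Continuous τ) {κ : ℝ} (hκ : 0 < κ)
    {W : Set X} (hW : MeasurableSet W) (hμW : μ W ≠ 0) :
    ∃ (σ : ℝ) (C : ℕ), (σ = 1 ∨ σ = -1) ∧ μ (GoodSet f τ κ σ C W) ≠ 0 := by
  obtain ⟨B, -, hB⟩ := exists_bound hτ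
  have hμ' : MeasurePreserving f.symm μ μ :=
    MeasurePreserving.symm f.toMeasurableEquiv hμ
  have b1 := Pool.Agent.H165R3.BPE.birkhoff hμ τ hτ.measurable B hB
  have b2 := Pool.Agent.H165R3.BPE.birkhoff hμ' τ hτ.measurable B hB
  rw [invariants_symm] at b2
  by_contra hcon
  push Not at hcon
  have hz : μ (⋃ C : ℕ, (GoodSet f τ κ 1 C W ∪ GoodSet f τ κ (-1) C W)) = 0 := by
    rw [measure_iUnion_null_iff]
    intro C
    exact measure_union_null (hcon 1 C (Or.inl rfl)) (hcon (-1) C (Or.inr rfl))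
  apply hμW
  have hsub : ∀ᵐ x ∂μ, x ∈ W → x ∈ ⋃ C : ℕ, (GoodSet f τ κ 1 C W ∪ GoodSet f τ κ (-1) C W) := by
    filter_upwards [b1, b2] with x h1 h2 hxW
    obtain ⟨g, hg⟩ : ∃ g : ℝ, g = (μ[τ | MeasurableSpace.invariants f]) x := ⟨_, rfl⟩
    rw [← hg] at h1 h2
    -- the backward sums
    have h3 : Tendsto (fun n : ℕ => (n : ℝ)⁻¹ * bsum f.symm τ n (f.symm x)) atTop (𝓝 g) := by
      have e : ∀ n : ℕ, bsum f.symm τ n (f.symm x) =
          (∑ k ∈ Finset.range n, τ (f.symm^[k] x)) + (τ (f.symm^[n] x) - τ x) := by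
        intro n
        induction n with
        | zero => simp [bsum]
        | succ n ih =>
          rw [bsum_succ, ih, Finset.sum_range_succ, ← Function.iterate_succ_apply]
          ring
      have h4 : Tendsto (fun n : ℕ => (n : ℝ)⁻¹ * (τ (f.symm^[n] x) - τ x)) atTop (𝓝 0) := by
        refine squeeze_zero_norm (a := fun n : ℕ => (n : ℝ)⁻¹ * (2 * B)) (fun n => ?_) ?_
        · rw [norm_mul, Real.norm_eq_abs, Real.norm_eq_abs, abs_of_nonneg (by positivity)]
          apply mul_le_mul_of_nonneg_left _ (by positivity)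
          have h5 := abs_sub (τ (f.symm^[n] x)) (τ x)
          have h6 := hB (f.symm^[n] x)
          have h7 := hB x
          linarith
        · have := tendsto_inv_atTop_nhds_zero_nat (𝕜 := ℝ)
          simpa using this.mul_const (2 * B)
      have h5 := h2.add h4
      rw [add_zero] at h5
      refine h5.congr fun n => ?_
      rw [e, mul_add]
    rw [mem_iUnion]
    rcases le_or_gt 0 g with hg0 | hg0
    · obtain ⟨C1, hC1⟩ := lower_of_tendsto (show 0 < κ / 4 by linarith) h1
      obtain ⟨C2, hC2⟩ := lower_of_tendsto (show 0 < κ / 4 by linarith) h3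
      refine ⟨C1 + C2, Or.inl ⟨hxW, fun j => ?_⟩⟩
      have hj : (0 : ℝ) ≤ j := Nat.cast_nonneg j
      have a1 := hC1 j
      have a2 := hC2 j
      have a3 : 0 ≤ g * j := mul_nonneg hg0 hj
      have a4 : 0 ≤ κ * j := by positivity
      have a5 : (0 : ℝ) ≤ C1 := Nat.cast_nonneg C1
      have a6 : (0 : ℝ) ≤ C2 := Nat.cast_nonneg C2
      push_cast
      unfold bsum at a2 ⊢
      constructor <;> nlinarith
    · have h1' : Tendsto (fun n : ℕ => (n : ℝ)⁻¹ * (-(∑ k ∈ Finset.range n, τ (f^[k] x)))) atTop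
          (𝓝 (-g)) := by
        refine h1.neg.congr fun n => ?_
        ring
      have h3' : Tendsto (fun n : ℕ => (n : ℝ)⁻¹ * (-(bsum f.symm τ n (f.symm x)))) atTop
          (𝓝 (-g)) := by
        refine h3.neg.congr fun n => ?_
        ring
      obtain ⟨C1, hC1⟩ := lower_of_tendsto (show 0 < κ / 4 by linarith) h1'
      obtain ⟨C2, hC2⟩ := lower_of_tendsto (show 0 < κ / 4 by linarith) h3'
      refine ⟨C1 + C2, Or.inr ⟨hxW, fun j => ?_⟩⟩
      have hj : (0 : ℝ) ≤ j := Nat.cast_nonneg j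
      have a1 := hC1 j
      have a2 := hC2 j
      have a3 : 0 ≤ (-g) * j := mul_nonneg (by linarith) hj
      have a4 : 0 ≤ κ * j := by positivity
      have a5 : (0 : ℝ) ≤ C1 := Nat.cast_nonneg C1
      have a6 : (0 : ℝ) ≤ C2 := Nat.cast_nonneg C2
      push_cast
      unfold bsum at a2 ⊢
      constructor <;> nlinarith
  have h8 : μ W ≤ μ (⋃ C : ℕ, (GoodSet f τ κ 1 C W ∪ GoodSet f τ κ (-1) C W)) :=
    measure_mono_ae hsub
  rw [hz] at h8
  exact le_antisymm h8 zero_le'

end Pool.Agent.Q100.Spec
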