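import Pool.Agent.Q100.Spec.General2
import Pool.Agent.Q100.Spec.Good

/-!
# One flow, arbitrary time function, points over the measure centre
-/

set_option autoImplicit false
set_option linter.unusedSectionVars false

open scoped Manifold ContDiff Topology
open Filter Set Metric MeasureTheory

universe u v w

namespace Pool.Agent.Q100.Spec

open Pool.Agent.H718R2.G Pool.Agent.W564.SC Pool.Agent.TH290.CL Pool.Agent.W216.SC

theorem bsum_reverse {X : Type v} [TopologicalSpace X] (f : X ≃ₜ X) (τ : X → ℝ) (k : ℕ) (z : X) :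
    bsum f τ k z = bsum f.symm τ k (f.symm (f^[k] z)) := by
  induction k generalizing z with
  | zero => simp [bsum]
  | succ k ih =>
    rw [bsum_succ, ih, Function.iterate_succ_apply', f.symm_apply_apply]
    have h1 : bsum f.symm τ (1 + k) (f^[k] z) = bsum f.symm τ 1 (f^[k] z) +
        bsum f.symm τ k (f.symm^[1] (f^[k] z)) := bsum_add _ _ _
    rw [add_comm k 1, h1, Function.iterate_one]
    simp only [bsum, Finset.range_one, Finset.sum_singleton, Function.iterate_zero, id_eq]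
    ring

section
variable {n : ℕ} {N : Type u} [TopologicalSpace N] [T2Space N] [CompactSpace N]
  [ChartedSpace (V n) N] [IsManifold (𝓡 n) ∞ N] {ψ : ℝ → N → N}
  {X : Type v} {Y : Type w} [MetricSpace X] [CompactSpace X] [MetricSpace Y] [CompactSpace Y]

theorem centre {r : ℕ∞} (hr : 1 ≤ r) (F : DiffM n N r) (hψ : IsFlow n N ψ) {Θ : X × Y → N}
    (hΘ : Topology.IsEmbedding Θ) {f : X ≃ₜ X} {τ : X → ℝ} (hτ : Continuous τ) {φ : Flow ℝ Y}
    (hsp : WeakSpec φ) (hmo : ManyOrbits φ) (hflow : ∀ t x y, ψ t (Θ (x, y)) = Θ (x, φ t y))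
    (hF : ∀ x y, F (Θ (x, y)) = Θ (f x, φ (τ x) y)) [MeasurableSpace X] [BorelSpace X]
    {μ : Measure X} [IsProbabilityMeasure μ] (hμ : MeasurePreserving f μ μ) (x₀ : X) (y : Y)
    (hx : ∀ W ∈ 𝓝 x₀, μ W ≠ 0) : Closable n N r F (Θ (x₀, y)) := by
  refine closing_of_good hr F (famH hψ F) (famH_isFam hψ F) (famH_zero hψ F) hΘ
    (fun s i x' y => φ (tt (fun j => bsum f τ j x') s i) y)
    (fun s i x' y => iter_H hψ hflow hF s i x' y) x₀ y ?_
  intro κ hκ η hη
  obtain ⟨ρ, R₀, B, hρ, hR₀, hB, hflex⟩ := flex_two hsp hmo y η hη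
  obtain ⟨Cτ, hCτ, hbd⟩ := exists_bound hτ
  obtain ⟨L, hL⟩ := exists_nat_ge ((16 * (Cτ + κ)) / κ)
  rw [div_le_iff₀ hκ] at hL
  have hL1 : 16 * (Cτ + κ) ≤ κ * L := by linarith
  obtain ⟨σ, C, hσ, hΛ⟩ := exists_goodSet f hμ hτ hκ (W := ball x₀ η) measurableSet_ball
    (hx _ (ball_mem_nhds x₀ hη))
  set Λ := GoodSet f τ κ σ C (ball x₀ η) with hΛd
  have hΛm : MeasurableSet Λ := goodSet_meas f hτ κ σ C measurableSet_ball
  obtain ⟨x, hxΛ, hxpos⟩ := exists_mem_forall_mem_nhdsWithin_pos_measure hΛ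
  set RR := R₀ + B + L * B with hRR
  have hRR0 : 0 ≤ RR := by positivity
  have hσσ : σ * σ = 1 := by rcases hσ with h | h <;> rw [h] <;> norm_num
  have hσa : |σ| = 1 := by rcases hσ with h | h <;> rw [h] <;> norm_num
  have hC0 : (0 : ℝ) ≤ C := Nat.cast_nonneg C
  obtain ⟨R, hR⟩ := exists_nat_gt ((8 * (RR + C) + 2 * B + 16 * R₀ + 16 * C) / κ)
  rw [div_lt_iff₀ hκ] at hR
  have hR1 : 1 ≤ R := by
    rcases Nat.eq_zero_or_pos R with h | h
    · rw [h, Nat.cast_zero, zero_mul] at hR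
      exfalso
      have : 0 ≤ 8 * (RR + C) + 2 * B + 16 * R₀ + 16 * C := by positivity
      linarith
    · exact h
  have hlarge : ∀ m : ℕ, R ≤ m → 8 * (RR + C) + 2 * B + 16 * R₀ + 16 * C < κ * m := by
    intro m hm
    have h1 : (R : ℝ) ≤ m := by exact_mod_cast hm
    have h2 := mul_le_mul_of_nonneg_left h1 hκ.le
    linarith
  refine ⟨ρ, hρ, R, hR1, x, Λ, hxΛ.1, ?_, ?_, ?_⟩
  · -- returns
    intro ε hε M
    set E := Λ ∩ ball x ε with hE
    have hEm : MeasurableSet E := hΛm.inter measurableSet_ball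
    have hE0 : μ E ≠ 0 := by
      refine (hxpos E ?_).ne'
      exact inter_mem self_mem_nhdsWithin (mem_nhdsWithin_of_mem_nhds (ball_mem_nhds x hε))
    obtain ⟨m, hm, hm'⟩ := hμ.conservative.exists_gt_measure_inter_ne_zero
      hEm.nullMeasurableSet hE0 M
    obtain ⟨x1, h1, h2⟩ := nonempty_of_measure_ne_zero hm'
    exact ⟨x1, m, hm.le, h1.1, h2.1, h1.2, h2.2⟩
  · -- periodic base point
    intro b hb hbx
    have hm0 : 1 * R ≤ b * R := Nat.mul_le_mul_right _ hb
    have hxm : f^[b * R] x = x := by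
      have h4 : Function.IsPeriodicPt f b x := hbx
      exact h4.mul_const R
    obtain ⟨m, hm⟩ : ∃ m : ℕ, m = b * R := ⟨_, rfl⟩
    rw [← hm] at hxm hm0
    have hmR : R ≤ m := by omega
    have hl := hlarge m hmR
    have hm1 : (1 : ℝ) ≤ m := by exact_mod_cast (by omega : 1 ≤ m)
    have hκm : 0 < κ * m := by positivity
    obtain ⟨s₀, hs₀, hT₀⟩ : ∃ s₀ : ℝ, |s₀| ≤ κ / 2 ∧
        κ * m / 16 ≤ |tt (fun j => bsum f τ j x) s₀ m| := by
      rcases le_total 0 (bsum f τ m x) with h | h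
      · refine ⟨κ / 2, by rw [abs_of_pos (by linarith)], ?_⟩
        refine le_trans ?_ (le_abs_self _)
        unfold tt
        nlinarith
      · refine ⟨-(κ / 2), by rw [abs_neg, abs_of_pos (by linarith)], ?_⟩
        refine le_trans ?_ (neg_le_abs _)
        unfold tt
        nlinarith
    obtain ⟨s, p, h1, h2, h3, -⟩ := adjust hκ hR₀ hB hCτ hflex hL1 (by omega : 1 ≤ m)
      (by linarith) (by linarith) (S := fun j => bsum f τ j x) (fun i _ => bsum_abs hbd i x) hs₀ hT₀
    exact ⟨m, by omega, hxm, s, p, by rwa [Real.norm_eq_abs], h2, h3⟩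
  · -- the choice
    intro m hm x' hx' hmx'
    have hl := hlarge m hm
    have hfw : ∀ i : ℕ, κ / 8 * i - C ≤ σ * tt (fun j => bsum f τ j x') (σ * (κ / 2)) i :=
      fun i => (hx'.2 i).1
    have hbw : ∀ i : ℕ, i ≤ m → κ / 8 * ((m : ℝ) - i) - C ≤
        σ * (tt (fun j => bsum f τ j x') (σ * (κ / 2)) m -
          tt (fun j => bsum f τ j x') (σ * (κ / 2)) i) := by
      intro i hi
      have h1 := (hmx'.2 (m - i)).2
      have h2 : f^[m - i] (f^[i] x') = f^[m] x' := by
        rw [← Function.iterate_add_apply, Nat.sub_add_cancel hi]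
      have h3 : bsum f.symm τ (m - i) (f.symm (f^[m] x')) = bsum f τ (m - i) (f^[i] x') := by
        rw [bsum_reverse f τ (m - i) (f^[i] x'), h2]
      have h4 : bsum f τ m x' = bsum f τ i x' + bsum f τ (m - i) (f^[i] x') := by
        rw [← bsum_add, Nat.add_sub_cancel' hi]
      rw [h3, Nat.cast_sub hi] at h1
      unfold tt
      simp only [h4]
      linarith
    have hs₀ : |σ * (κ / 2)| ≤ κ / 2 := by
      rw [abs_mul, hσa, one_mul, abs_of_pos (by linarith)]
    have hσabs : ∀ a : ℝ, σ * a ≤ |a| := by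
      intro a
      have := le_abs_self (σ * a)
      rwa [abs_mul, hσa, one_mul] at this
    have hσabs' : ∀ a : ℝ, -(σ * a) ≤ |a| := by
      intro a
      have := neg_le_abs (σ * a)
      rwa [abs_mul, hσa, one_mul] at this
    have hT₀ : κ * m / 16 ≤ |tt (fun j => bsum f τ j x') (σ * (κ / 2)) m| := by
      have h1 := hfw m
      have h2 := hσabs (tt (fun j => bsum f τ j x') (σ * (κ / 2)) m)
      linarith
    obtain ⟨s, p, h1, h2, h3, h4⟩ := adjust hκ hR₀ hB hCτ hflex hL1 (by omega : 1 ≤ m)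
      (by linarith) (by linarith) (S := fun j => bsum f τ j x') (fun i _ => bsum_abs hbd i x')
      hs₀ hT₀
    refine ⟨s, p, by rwa [Real.norm_eq_abs], h2, h3, fun i hi hi' => ?_⟩
    refine h4 i (by omega) fun l _ => ?_
    have hli := hlarge i hi
    have hlmi := hlarge (m - i) (by omega)
    rw [Nat.cast_sub (by omega)] at hlmi
    have hTpos : 0 ≤ σ * tt (fun j => bsum f τ j x') (σ * (κ / 2)) m := by
      have h5 := hfw m
      linarith
    rcases le_or_gt l 0 with hl0 | hl0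
    · have hlr : (l : ℝ) ≤ 0 := by exact_mod_cast hl0
      have h5 := hfw i
      have h6 := hσabs (tt (fun j => bsum f τ j x') (σ * (κ / 2)) i -
        l * tt (fun j => bsum f τ j x') (σ * (κ / 2)) m)
      have h7 : 0 ≤ (-(l : ℝ)) * (σ * tt (fun j => bsum f τ j x') (σ * (κ / 2)) m) :=
        mul_nonneg (by linarith) hTpos
      nlinarith
    · have hlr : (1 : ℝ) ≤ l := by exact_mod_cast hl0
      have h5 := hbw i (by omega)
      have h6 := hσabs' (tt (fun j => bsum f τ j x') (σ * (κ / 2)) i -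
        l * tt (fun j => bsum f τ j x') (σ * (κ / 2)) m)
      have h7 : 0 ≤ ((l : ℝ) - 1) * (σ * tt (fun j => bsum f τ j x') (σ * (κ / 2)) m) :=
        mul_nonneg (by linarith) hTpos
      nlinarith

end

end Pool.Agent.Q100.Spec
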