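import Mathlib

/-!
# Choice of two drifts
-/

set_option autoImplicit false

open Set MeasureTheory

namespace Pool.Agent.Q100.Spec

/-- the times `t_i = S_i + i s` -/
def tt (S : ℕ → ℝ) (s : ℝ) (i : ℕ) : ℝ := S i + i * s

/-- bad drifts: `t_i` is `R`-close to a small multiple of `t_m` -/
def Bd (κ R : ℝ) (L : ℕ) (S : ℕ → ℝ) (m i : ℕ) : Set ℝ :=
  {s | s ∈ Icc (-(κ / 2)) (κ / 2) ∧ ∃ l : ℤ, |l| ≤ L ∧ |tt S s i - l * tt S s m| ≤ R}

/-- bad drifts: `t_m` is small -/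
def Sm (κ : ℝ) (S : ℕ → ℝ) (m : ℕ) : Set ℝ :=
  {s | s ∈ Icc (-(κ / 2)) (κ / 2) ∧ |tt S s m| < κ * m / 16}

theorem icc_real {a c R : ℝ} (ha : a ≠ 0) (hR : 0 ≤ R) :
    {s : ℝ | |a * s + c| ≤ R} = Icc (-c / a - R / |a|) (-c / a + R / |a|) := by
  ext s
  have ha' : 0 < |a| := abs_pos.2 ha
  have h1 : |a * s + c| = |a| * |s - (-c / a)| := by
    rw [← abs_mul]
    congr 1
    field_simp
    ring
  rw [mem_setOf_eq, h1, mem_Icc, ← le_div_iff₀' ha', abs_le]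
  constructor
  · rintro ⟨h2, h3⟩
    constructor <;> linarith
  · rintro ⟨h2, h3⟩
    constructor <;> linarith

theorem vol_le {a c R : ℝ} (ha : a ≠ 0) (hR : 0 ≤ R) :
    (volume : Measure ℝ).real {s : ℝ | |a * s + c| ≤ R} ≤ 2 * R / |a| := by
  rw [icc_real ha hR, Measure.real, Real.volume_Icc, ENNReal.toReal_ofReal']
  have ha' : 0 < |a| := abs_pos.2 ha
  apply max_le
  · apply le_of_eq
    ring
  · positivity

theorem fin_vol {a c R : ℝ} (ha : a ≠ 0) (hR : 0 ≤ R) :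
    (volume : Measure ℝ) {s : ℝ | |a * s + c| ≤ R} ≠ ⊤ := by
  rw [icc_real ha hR]
  exact isCompact_Icc.measure_lt_top.ne

theorem Sm_vol {κ : ℝ} (hκ : 0 < κ) (S : ℕ → ℝ) {m : ℕ} (hm : 1 ≤ m) :
    (volume : Measure ℝ).real (Sm κ S m) ≤ κ / 8 := by
  have hm0 : (0 : ℝ) < m := by exact_mod_cast hm
  have h1 : Sm κ S m ⊆ {s : ℝ | |m * s + S m| ≤ κ * m / 16} := by
    rintro s ⟨-, hs⟩
    show |m * s + S m| ≤ κ * m / 16
    rw [add_comm]
    exact hs.le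
  have h2 : (0 : ℝ) ≤ κ * m / 16 := by positivity
  refine (measureReal_mono h1 (fin_vol hm0.ne' h2)).trans ((vol_le hm0.ne' h2).trans ?_)
  rw [abs_of_pos hm0]
  apply le_of_eq
  field_simp
  norm_num

theorem Bd_vol {κ R : ℝ} (hR : 0 ≤ R) (L : ℕ) (S : ℕ → ℝ) {m i : ℕ} (hi : 1 ≤ i) (him : i < m) :
    (volume : Measure ℝ).real (Bd κ R L S m i) ≤
      (2 * L + 1) * (2 * R) / (min i (m - i) : ℕ) := by
  classical
  have hq : ∀ l : ℤ, ((min i (m - i) : ℕ) : ℝ) ≤ |(i : ℝ) - l * m| := by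
    intro l
    have h1 : ((min i (m - i) : ℕ) : ℤ) ≤ |(i : ℤ) - l * m| := by
      have h2 : ((min i (m - i) : ℕ) : ℤ) ≤ i := by
        have := min_le_left i (m - i)
        exact_mod_cast this
      have h3 : ((min i (m - i) : ℕ) : ℤ) ≤ (m : ℤ) - i := by
        have := min_le_right i (m - i)
        omega
      rcases le_or_gt l 0 with hl | hl
      · have h4 : l * m ≤ 0 := mul_nonpos_of_nonpos_of_nonneg hl (by positivity)
        rw [abs_of_nonneg (by omega)]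
        omega
      · have h4 : (m : ℤ) ≤ l * m := by
          have : (1 : ℤ) * m ≤ l * m := mul_le_mul_of_nonneg_right (by omega) (by positivity)
          omega
        rw [abs_of_nonpos (by omega)]
        omega
    exact_mod_cast h1
  have hmin : 0 < ((min i (m - i) : ℕ) : ℝ) := by
    have : 0 < min i (m - i) := lt_min (by omega) (by omega)
    exact_mod_cast this
  have hne : ∀ l : ℤ, (i : ℝ) - l * m ≠ 0 := by
    intro l h
    have := hq l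
    rw [h, abs_zero] at this
    linarith
  have hsub : Bd κ R L S m i ⊆ ⋃ l ∈ Finset.Icc (-(L : ℤ)) L,
      {s : ℝ | |((i : ℝ) - l * m) * s + (S i - l * S m)| ≤ R} := by
    rintro s ⟨-, l, hl, hs⟩
    rw [mem_iUnion₂]
    refine ⟨l, by rw [Finset.mem_Icc]; exact abs_le.1 hl, ?_⟩
    show |((i : ℝ) - l * m) * s + (S i - l * S m)| ≤ R
    have e : ((i : ℝ) - l * m) * s + (S i - l * S m) = tt S s i - l * tt S s m := by
      unfold tt; ring
    rw [e]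
    exact hs
  have hfin : (volume : Measure ℝ) (⋃ l ∈ Finset.Icc (-(L : ℤ)) L,
      {s : ℝ | |((i : ℝ) - l * m) * s + (S i - l * S m)| ≤ R}) ≠ ⊤ := by
    refine ((measure_biUnion_finset_le _ _).trans_lt ?_).ne
    rw [ENNReal.sum_lt_top]
    intro l _
    exact (fin_vol (hne l) hR).lt_top
  refine (measureReal_mono hsub hfin).trans ((measureReal_biUnion_finset_le _ _).trans ?_)
  have h5 : ∀ l ∈ Finset.Icc (-(L : ℤ)) L, (volume : Measure ℝ).real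
      {s : ℝ | |((i : ℝ) - l * m) * s + (S i - l * S m)| ≤ R} ≤ 2 * R / (min i (m - i) : ℕ) := by
    intro l _
    refine (vol_le (hne l) hR).trans ?_
    exact div_le_div_of_nonneg_left (by linarith) hmin (hq l)
  refine (Finset.sum_le_sum h5).trans ?_
  rw [Finset.sum_const, Int.card_Icc, nsmul_eq_mul]
  have h6 : (((L : ℤ) + 1 - (-(L : ℤ))).toNat : ℝ) = 2 * L + 1 := by
    have : ((L : ℤ) + 1 - (-(L : ℤ))).toNat = 2 * L + 1 := by omega
    rw [this]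
    push_cast
    ring
  rw [h6]
  apply le_of_eq
  ring

theorem sum_bound (A : ℝ) (m R' : ℕ) (hR' : 1 ≤ R') :
    ∑ i ∈ Finset.Icc R' (m - R'), (A / (min i (m - i) : ℕ)) * (A / (min i (m - i) : ℕ)) ≤
      A ^ 2 * (4 / R') := by
  have h1 : ∀ i ∈ Finset.Icc R' (m - R'), (A / (min i (m - i) : ℕ)) * (A / (min i (m - i) : ℕ)) ≤
      A ^ 2 * (((i : ℝ) ^ 2)⁻¹ + (((m - i : ℕ) : ℝ) ^ 2)⁻¹) := by
    intro i hi
    rw [Finset.mem_Icc] at hi
    have e : (A / (min i (m - i) : ℕ)) * (A / (min i (m - i) : ℕ)) =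
        A ^ 2 * (((min i (m - i) : ℕ) : ℝ) ^ 2)⁻¹ := by
      rw [div_mul_div_comm, ← sq, ← sq, div_eq_mul_inv]
    rw [e]
    apply mul_le_mul_of_nonneg_left _ (sq_nonneg A)
    rcases min_choice i (m - i) with h | h
    · rw [h]
      have : (0 : ℝ) ≤ (((m - i : ℕ) : ℝ) ^ 2)⁻¹ := by positivity
      linarith
    · rw [h]
      have : (0 : ℝ) ≤ ((i : ℝ) ^ 2)⁻¹ := by positivity
      linarith
  refine (Finset.sum_le_sum h1).trans ?_
  rw [← Finset.mul_sum]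
  apply mul_le_mul_of_nonneg_left _ (sq_nonneg A)
  rw [Finset.sum_add_distrib]
  have h2 : ∑ i ∈ Finset.Icc R' (m - R'), ((i : ℝ) ^ 2)⁻¹ ≤ 2 / R' := by
    have h3 : Finset.Icc R' (m - R') ⊆ Finset.Ioo (R' - 1) (m - R' + 1) := by
      intro i hi
      rw [Finset.mem_Icc] at hi
      rw [Finset.mem_Ioo]
      omega
    refine (Finset.sum_le_sum_of_subset_of_nonneg h3 fun i _ _ => by positivity).trans ?_
    refine (sum_Ioo_inv_sq_le (R' - 1) (m - R' + 1)).trans ?_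
    apply le_of_eq
    congr 1
    rw [Nat.cast_sub hR']
    push_cast
    ring
  have h4 : ∑ i ∈ Finset.Icc R' (m - R'), (((m - i : ℕ) : ℝ) ^ 2)⁻¹ ≤ 2 / R' := by
    rcases Nat.lt_or_ge m R' with hlt | hge
    · have : m - R' = 0 := by omega
      rw [this, Finset.Icc_eq_empty (by omega), Finset.sum_empty]
      positivity
    have h5 : ∑ i ∈ Finset.Icc R' (m - R'), (((m - i : ℕ) : ℝ) ^ 2)⁻¹ =
        ∑ i ∈ Finset.Icc R' (m - R'), ((i : ℝ) ^ 2)⁻¹ := by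
      refine Finset.sum_bij' (fun i _ => m - i) (fun i _ => m - i) ?_ ?_ ?_ ?_ ?_
      · intro i hi
        rw [Finset.mem_Icc] at hi ⊢
        omega
      · intro i hi
        rw [Finset.mem_Icc] at hi ⊢
        omega
      · intro i hi
        rw [Finset.mem_Icc] at hi
        show m - (m - i) = i
        omega
      · intro i hi
        rw [Finset.mem_Icc] at hi
        show m - (m - i) = i
        omega
      · intro i hi
        rfl
    rw [h5]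
    exact h2
  have h6 : (2 : ℝ) / R' + 2 / R' = 4 / R' := by ring
  linarith

theorem choose_s {κ : ℝ} (hκ : 0 < κ) {R : ℝ} (hR : 0 ≤ R) (L : ℕ) : ∃ R' : ℕ, 1 ≤ R' ∧
    ∀ (m : ℕ), 2 * R' ≤ m → ∀ S₁ S₂ : ℕ → ℝ, ∃ s₁ s₂ : ℝ, |s₁| ≤ κ / 2 ∧ |s₂| ≤ κ / 2 ∧
      κ * m / 16 ≤ |tt S₁ s₁ m| ∧ κ * m / 16 ≤ |tt S₂ s₂ m| ∧
      ∀ i : ℕ, R' ≤ i → i + R' ≤ m →
        (∀ l : ℤ, |l| ≤ L → R < |tt S₁ s₁ i - l * tt S₁ s₁ m|) ∨
        (∀ l : ℤ, |l| ≤ L → R < |tt S₂ s₂ i - l * tt S₂ s₂ m|) := by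
  set A : ℝ := (2 * L + 1) * (2 * R) with hA
  obtain ⟨R', hR'⟩ := exists_nat_gt (A ^ 2 * 4 * 2 / κ ^ 2)
  have hR'0 : (0 : ℝ) < R' := lt_of_le_of_lt (by positivity) hR'
  have hR'1 : 1 ≤ R' := by exact_mod_cast hR'0
  refine ⟨R', hR'1, fun m hm S₁ S₂ => ?_⟩
  have hA2 : A ^ 2 * (4 / R') < κ ^ 2 / 2 := by
    rw [div_lt_iff₀ (by positivity)] at hR'
    rw [mul_div_assoc', div_lt_iff₀ hR'0]
    linarith
  set Q : Set ℝ := Icc (-(κ / 2)) (κ / 2) with hQ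
  have hQv : (volume : Measure ℝ).real Q = κ := by
    rw [hQ, Measure.real, Real.volume_Icc, ENNReal.toReal_ofReal (by linarith)]
    ring
  have hm1 : 1 ≤ m := by omega
  set Z : Set (ℝ × ℝ) := (Sm κ S₁ m ×ˢ Q ∪ Q ×ˢ Sm κ S₂ m) ∪
    ⋃ i ∈ Finset.Icc R' (m - R'), Bd κ R L S₁ m i ×ˢ Bd κ R L S₂ m i with hZ
  have hvZ : (volume : Measure (ℝ × ℝ)).real Z < κ ^ 2 := by
    have h1 : (volume : Measure (ℝ × ℝ)).real (Sm κ S₁ m ×ˢ Q) ≤ κ ^ 2 / 8 := by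
      rw [Measure.volume_eq_prod, measureReal_prod_prod, hQv]
      have := Sm_vol hκ S₁ hm1
      nlinarith
    have h2 : (volume : Measure (ℝ × ℝ)).real (Q ×ˢ Sm κ S₂ m) ≤ κ ^ 2 / 8 := by
      rw [Measure.volume_eq_prod, measureReal_prod_prod, hQv]
      have := Sm_vol hκ S₂ hm1
      nlinarith
    have h3 : (volume : Measure (ℝ × ℝ)).real
        (⋃ i ∈ Finset.Icc R' (m - R'), Bd κ R L S₁ m i ×ˢ Bd κ R L S₂ m i) ≤ A ^ 2 * (4 / R') := by
      refine (measureReal_biUnion_finset_le _ _).trans ?_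
      refine le_trans (Finset.sum_le_sum fun i hi => ?_) (sum_bound A m R' hR'1)
      rw [Finset.mem_Icc] at hi
      rw [Measure.volume_eq_prod, measureReal_prod_prod]
      exact mul_le_mul (Bd_vol hR L S₁ (by omega) (by omega)) (Bd_vol hR L S₂ (by omega) (by omega))
        measureReal_nonneg (by positivity)
    have h4 := measureReal_union_le (μ := (volume : Measure (ℝ × ℝ)))
      (Sm κ S₁ m ×ˢ Q ∪ Q ×ˢ Sm κ S₂ m)
      (⋃ i ∈ Finset.Icc R' (m - R'), Bd κ R L S₁ m i ×ˢ Bd κ R L S₂ m i)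
    have h5 := measureReal_union_le (μ := (volume : Measure (ℝ × ℝ))) (Sm κ S₁ m ×ˢ Q)
      (Q ×ˢ Sm κ S₂ m)
    have h6 : 0 < κ ^ 2 := by positivity
    linarith
  have hvQ : (volume : Measure (ℝ × ℝ)).real (Q ×ˢ Q) = κ ^ 2 := by
    rw [Measure.volume_eq_prod, measureReal_prod_prod, hQv]
    ring
  have hfin : (volume : Measure (ℝ × ℝ)) Z ≠ ⊤ := by
    have h1 : Z ⊆ Q ×ˢ Q := by
      rintro ⟨a, b⟩ ((⟨h1, h2⟩ | ⟨h1, h2⟩) | h)
      · exact ⟨h1.1, h2⟩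
      · exact ⟨h1, h2.1⟩
      · rw [mem_iUnion₂] at h
        obtain ⟨i, -, h1, h2⟩ := h
        exact ⟨h1.1, h2.1⟩
    refine ((measure_mono h1).trans_lt ?_).ne
    exact (isCompact_Icc.prod isCompact_Icc).measure_lt_top
  obtain ⟨⟨s₁, s₂⟩, hs, hs'⟩ : ∃ s ∈ Q ×ˢ Q, s ∉ Z := by
    by_contra hcon
    push Not at hcon
    have := measureReal_mono (μ := (volume : Measure (ℝ × ℝ))) (show Q ×ˢ Q ⊆ Z from hcon) hfin
    linarith
  refine ⟨s₁, s₂, abs_le.2 hs.1, abs_le.2 hs.2, ?_, ?_, fun i hi hi' => ?_⟩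
  · by_contra hcon
    push Not at hcon
    exact hs' (Or.inl (Or.inl ⟨⟨hs.1, hcon⟩, hs.2⟩))
  · by_contra hcon
    push Not at hcon
    exact hs' (Or.inl (Or.inr ⟨hs.1, ⟨hs.2, hcon⟩⟩))
  · by_contra hcon
    push Not at hcon
    apply hs'
    right
    rw [mem_iUnion₂]
    exact ⟨i, by rw [Finset.mem_Icc]; omega, ⟨hs.1, hcon.1⟩, ⟨hs.2, hcon.2⟩⟩

end Pool.Agent.Q100.Spec
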