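import Pool.Agent.W564.SC.LibA
import Pool.Agent.TH290.CL.Flow

/-!
# Flows with weak specification: flexible periodic orbits
-/

set_option autoImplicit false

open Filter Set Metric
open scoped Topology

universe u v w

namespace Pool.Agent.Q100.Spec

/-- The weak specification property (with periodic orbits) of a flow: for every `ε` there is `L` such
that any two orbit pieces (of any lengths `t₁`, `t₂ ≥ 0`, starting at `y₁`, `y₂`) are `ε`-traced, one
after the other, by a closed orbit which needs a time at most `L` for each of the two transitions. -/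
def WeakSpec {Y : Type*} [MetricSpace Y] (φ : Flow ℝ Y) : Prop :=
  ∀ ε : ℝ, 0 < ε → ∃ L : ℝ, ∀ (y₁ y₂ : Y) (t₁ t₂ : ℝ), 0 ≤ t₁ → 0 ≤ t₂ →
    ∃ (p : Y) (l₁ l₂ : ℝ), 0 ≤ l₁ ∧ l₁ ≤ L ∧ 0 ≤ l₂ ∧ l₂ ≤ L ∧
      φ (t₁ + l₁ + t₂ + l₂) p = p ∧
      (∀ t, 0 ≤ t → t ≤ t₁ → dist (φ t p) (φ t y₁) ≤ ε) ∧
      ∀ t, 0 ≤ t → t ≤ t₂ → dist (φ (t₁ + l₁ + t) p) (φ t y₂) ≤ ε

/-- The flow has more than one orbit. -/
def ManyOrbits {Y : Type*} [TopologicalSpace Y] (φ : Flow ℝ Y) : Prop :=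
  ∀ y : Y, ∃ y' : Y, ∀ t : ℝ, φ t y ≠ y'

section
variable {Y : Type w} [MetricSpace Y] {φ : Flow ℝ Y}

theorem flow_add (s t : ℝ) (y : Y) : φ (s + t) y = φ s (φ t y) := φ.map_add s t y

theorem flow_zero (y : Y) : φ 0 y = y := φ.map_zero_apply y

theorem flow_neg (t : ℝ) (y : Y) : φ (-t) (φ t y) = y := by
  rw [← flow_add, neg_add_cancel, flow_zero]

theorem flow_neg' (t : ℝ) (y : Y) : φ t (φ (-t) y) = y := by
  rw [← flow_add, add_neg_cancel, flow_zero]

theorem cont (t : ℝ) : Continuous (φ t) := φ.continuous_toFun t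

theorem cont2 : Continuous (fun p : ℝ × Y => φ p.1 p.2) := φ.cont'

theorem per_int {T : ℝ} {q : Y} (hq : φ T q = q) (k : ℕ) : φ (k * T) q = q := by
  induction k with
  | zero => simp [flow_zero]
  | succ k ih =>
    rw [Nat.cast_succ, add_mul, one_mul, flow_add, hq, ih]

theorem per_zint {T : ℝ} {q : Y} (hq : φ T q = q) (k : ℤ) : φ (k * T) q = q := by
  obtain ⟨n, rfl | rfl⟩ := k.eq_nat_or_neg
  · exact per_int hq n
  · have h1 := per_int hq n
    have h2 : φ (-(n * T)) (φ (n * T) q) = q := flow_neg _ _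
    rw [h1] at h2
    rw [Int.cast_neg, Int.cast_natCast, neg_mul]
    exact h2

/-- the orbit of a periodic point is compact -/
theorem orbit_eq {T : ℝ} (hT : 0 < T) {q : Y} (hq : φ T q = q) :
    range (fun t : ℝ => φ t q) = (fun t : ℝ => φ t q) '' Icc 0 T := by
  apply Subset.antisymm
  · rintro _ ⟨t, rfl⟩
    refine ⟨t - ⌊t / T⌋ * T, ⟨?_, ?_⟩, ?_⟩
    · have h1 := Int.floor_le (t / T)
      rw [le_div_iff₀ hT] at h1
      linarith
    · have h1 := (Int.lt_floor_add_one (t / T)).le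
      rw [div_le_iff₀ hT] at h1
      linarith
    · have h1 : φ t q = φ (t - ⌊t / T⌋ * T) (φ (⌊t / T⌋ * T) q) := by
        rw [← flow_add, sub_add_cancel]
      show φ (t - ⌊t / T⌋ * T) q = φ t q
      rw [h1, per_zint hq]
  · rintro _ ⟨t, -, rfl⟩
    exact ⟨t, rfl⟩

theorem orbit_compact {T : ℝ} (hT : 0 < T) {q : Y} (hq : φ T q = q) :
    IsCompact (range (fun t : ℝ => φ t q)) := by
  rw [orbit_eq hT hq]
  exact isCompact_Icc.image (cont2.comp (continuous_id.prodMk continuous_const))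

theorem dense_per (hs : WeakSpec φ) (y : Y) (ε : ℝ) (hε : 0 < ε) :
    ∃ (q : Y) (T : ℝ), 0 < T ∧ φ T q = q ∧ dist q y ≤ ε := by
  obtain ⟨L, hL⟩ := hs ε hε
  obtain ⟨q, l₁, l₂, h1, -, h3, -, h5, h6, -⟩ := hL y y 0 1 le_rfl zero_le_one
  refine ⟨q, _, by linarith, h5, ?_⟩
  have := h6 0 le_rfl le_rfl
  rwa [flow_zero, flow_zero] at this

/-- there is a periodic point whose orbit does not contain `y` -/
theorem exists_other (hs : WeakSpec φ) (hm : ManyOrbits φ) (y : Y) :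
    ∃ (q : Y) (T : ℝ), 0 < T ∧ φ T q = q ∧ ∀ t : ℝ, φ t q ≠ y := by
  by_contra hcon
  push Not at hcon
  obtain ⟨q, T, hT, hq, -⟩ := dense_per hs y 1 one_pos
  obtain ⟨t, ht⟩ := hcon q T hT hq
  have hy : φ T y = y := by
    rw [← ht, ← flow_add, add_comm, flow_add, hq]
  have hc := (orbit_compact hT hy).isClosed
  obtain ⟨y', hy'⟩ := hm y
  have h1 : y' ∈ closure (range (fun t : ℝ => φ t y)) := by
    rw [Metric.mem_closure_iff]
    intro ε hε
    obtain ⟨q', T', hT', hq', hd⟩ := dense_per hs y' (ε / 2) (half_pos hε)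
    obtain ⟨t', ht'⟩ := hcon q' T' hT' hq'
    refine ⟨q', ⟨-t', ?_⟩, ?_⟩
    · show φ (-t') y = q'
      rw [← ht', flow_neg]
    · rw [dist_comm]
      linarith
  rw [hc.closure_eq] at h1
  obtain ⟨t, ht⟩ := h1
  exact hy' t ht

/-- Flexible periodic orbits: closed orbits through points near `y`, with prescribed period up to a
bounded error, which stay away from their initial point except near the beginning and the end. -/
theorem flex (hs : WeakSpec φ) (hm : ManyOrbits φ) (y : Y) (η : ℝ) (hη : 0 < η) :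
    ∃ ρ R B : ℝ, 0 < ρ ∧ 0 ≤ R ∧ 0 ≤ B ∧ ∀ T₀ : ℝ, 0 ≤ T₀ → ∃ (T : ℝ) (p : Y),
      T₀ ≤ T ∧ T ≤ T₀ + B ∧ dist p y < η ∧ φ T p = p ∧
      ∀ t, R ≤ t → t ≤ T - R → ρ ≤ dist (φ t p) p := by
  obtain ⟨q, Tq, hTq, hq, hqy⟩ := exists_other hs hm y
  obtain ⟨c, hc, hcq⟩ : ∃ c : ℝ, 0 < c ∧ ∀ t, c ≤ dist (φ t q) y := by
    have hK := orbit_compact hTq hq
    have hne : (range (fun t : ℝ => φ t q)).Nonempty := ⟨q, 0, flow_zero q⟩
    obtain ⟨q₀, hq₀, hmin⟩ := hK.exists_isMinOn hne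
      (continuous_id.dist continuous_const : Continuous fun x : Y => dist x y).continuousOn
    obtain ⟨t₀, ht₀⟩ := hq₀
    refine ⟨dist q₀ y, dist_pos.2 ?_, fun t => hmin ⟨t, rfl⟩⟩
    rw [← ht₀]
    exact hqy t₀
  set ε := min (η / 2) (c / 4) with hε
  have hε0 : 0 < ε := lt_min (half_pos hη) (by linarith)
  obtain ⟨L, hL⟩ := hs ε hε0
  have hL0 : 0 ≤ L := by
    obtain ⟨-, l₁, -, h1, h2, -⟩ := hL y y 0 0 le_rfl le_rfl
    linarith
  refine ⟨c / 2, L, 2 * L, half_pos hc, hL0, by linarith, fun T₀ hT₀ => ?_⟩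
  obtain ⟨p, l₁, l₂, h1, h2, h3, h4, h5, h6, h7⟩ := hL y q 0 T₀ le_rfl hT₀
  have hpy : dist p y ≤ ε := by
    have := h6 0 le_rfl le_rfl
    rwa [flow_zero, flow_zero] at this
  refine ⟨0 + l₁ + T₀ + l₂, p, by linarith, by linarith, ?_, h5, fun t ht ht' => ?_⟩
  · have : ε ≤ η / 2 := min_le_left _ _
    linarith
  · have h8 := h7 (t - l₁) (by linarith) (by linarith)
    rw [zero_add, add_sub_cancel] at h8
    have h9 := hcq (t - l₁)
    have h10 : ε ≤ c / 4 := min_le_right _ _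
    have h11 := dist_triangle4 (φ (t - l₁) q) (φ t p) p y
    rw [dist_comm (φ (t - l₁) q) (φ t p)] at h11
    linarith

end

/-! ### the reversed flow -/

/-- the reversed flow -/
def rev {Y : Type*} [TopologicalSpace Y] (φ : Flow ℝ Y) : Flow ℝ Y where
  toFun t y := φ (-t) y
  cont' := by
    have h : Continuous (fun p : ℝ × Y => φ p.1 p.2) := φ.cont'
    exact h.comp ((continuous_neg.comp continuous_fst).prodMk continuous_snd)
  map_add' s t y := by
    rw [neg_add]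
    exact φ.map_add (-s) (-t) y
  map_zero' y := by
    rw [neg_zero]
    exact φ.map_zero_apply y

theorem rev_apply {Y : Type*} [TopologicalSpace Y] (φ : Flow ℝ Y) (t : ℝ) (y : Y) :
    rev φ t y = φ (-t) y := rfl

theorem rev_many {Y : Type*} [TopologicalSpace Y] {φ : Flow ℝ Y} (h : ManyOrbits φ) :
    ManyOrbits (rev φ) := by
  intro y
  obtain ⟨y', hy'⟩ := h y
  exact ⟨y', fun t => hy' (-t)⟩

theorem rev_spec {Y : Type*} [MetricSpace Y] {φ : Flow ℝ Y} (h : WeakSpec φ) :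
    WeakSpec (rev φ) := by
  intro ε hε
  obtain ⟨L, hL⟩ := h ε hε
  refine ⟨L, fun y₁ y₂ t₁ t₂ ht₁ ht₂ => ?_⟩
  obtain ⟨p, l₁, l₂, h1, h2, h3, h4, h5, h6, h7⟩ := hL (φ (-t₂) y₂) (φ (-t₁) y₁) t₂ t₁ ht₂ ht₁
  refine ⟨φ (t₂ + l₁ + t₁) p, l₁, l₂, h1, h2, h3, h4, ?_, ?_, ?_⟩
  · rw [rev_apply, ← flow_add]
    have h8 : φ (-(t₂ + l₁ + t₁ + l₂)) p = p := by
      have h9 : φ (-(t₂ + l₁ + t₁ + l₂)) (φ (t₂ + l₁ + t₁ + l₂) p) = p := flow_neg _ _
      rwa [h5] at h9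
    have h10 : -(t₁ + l₁ + t₂ + l₂) + (t₂ + l₁ + t₁) = (t₂ + l₁ + t₁) + -(t₂ + l₁ + t₁ + l₂) := by
      ring
    rw [h10, flow_add, h8]
  · intro t ht ht'
    have h8 := h7 (t₁ - t) (by linarith) (by linarith)
    rw [rev_apply, rev_apply, ← flow_add]
    rw [← flow_add] at h8
    have e1 : -t + (t₂ + l₁ + t₁) = t₂ + l₁ + (t₁ - t) := by ring
    have e2 : t₁ - t + -t₁ = -t := by ring
    rw [e1]
    rwa [e2] at h8
  · intro t ht ht'
    have h8 := h6 (t₂ - t) (by linarith) (by linarith)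
    rw [rev_apply, rev_apply, ← flow_add]
    rw [← flow_add] at h8
    have e1 : -(t₁ + l₁ + t) + (t₂ + l₁ + t₁) = t₂ - t := by ring
    have e2 : t₂ - t + -t₂ = -t := by ring
    rw [e1]
    rwa [e2] at h8

end Pool.Agent.Q100.Spec
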