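import Pool.Agent.Q100.Spec.Main

/-!
# Closing criterion with good base points near the given one
-/

set_option autoImplicit false
set_option linter.unusedSectionVars false

open scoped Manifold ContDiff Topology
open Filter Set Metric

universe u v w

namespace Pool.Agent.Q100.Spec

open Pool.Agent.H718R2.G Pool.Agent.W564.SC Pool.Agent.TH290.CL Pool.Agent.W216.SC

variable {n : ℕ} {N : Type u} [TopologicalSpace N] [T2Space N] [CompactSpace N]
  [ChartedSpace (V n) N] [IsManifold (𝓡 n) ∞ N]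
  {X : Type v} {Y : Type w} [MetricSpace X] [CompactSpace X] [MetricSpace Y] [CompactSpace Y]

theorem closing_of_good {r : ℕ∞} (hr : 1 ≤ r) (F : DiffM n N r) {P : Type}
    [NormedAddCommGroup P] [NormedSpace ℝ P] (H : P → DiffM n N r) (hfam : IsFam n N r H)
    (hH0 : H 0 = F) {Θ : X × Y → N} (hΘ : Topology.IsEmbedding Θ) {f : X ≃ₜ X}
    (A : P → ℕ → X → Y → Y) (hA : ∀ s i x y, (H s)^[i] (Θ (x, y)) = Θ (f^[i] x, A s i x y))
    (x₀ : X) (y : Y)
    (hch : ∀ κ : ℝ, 0 < κ → ∀ η : ℝ, 0 < η → ∃ ρ0 : ℝ, 0 < ρ0 ∧ ∃ R : ℕ, 1 ≤ R ∧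
      ∃ (x : X) (Λ : Set X), dist x x₀ < η ∧
      (∀ ε : ℝ, 0 < ε → ∀ M : ℕ, ∃ (x1 : X) (m : ℕ), M ≤ m ∧ x1 ∈ Λ ∧ f^[m] x1 ∈ Λ ∧
        dist x1 x < ε ∧ dist (f^[m] x1) x < ε) ∧
      (∀ b : ℕ, 1 ≤ b → f^[b] x = x → ∃ m : ℕ, 1 ≤ m ∧ f^[m] x = x ∧ ∃ (s : P) (p : Y), ‖s‖ < κ ∧
        dist p y < η ∧ A s m x p = p) ∧
      ∀ m : ℕ, R ≤ m → ∀ x' ∈ Λ, f^[m] x' ∈ Λ → ∃ (s : P) (p : Y), ‖s‖ < κ ∧ dist p y < η ∧
        A s m x' p = p ∧ ∀ i : ℕ, R ≤ i → i + R ≤ m → ρ0 ≤ dist (A s i x' p) p) :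
    Closable n N r F (Θ (x₀, y)) := by
  intro U hU hFU
  obtain ⟨χ, hχ⟩ := Pool.Agent.W699.SC.gc n N (Θ (x₀, y))
  obtain ⟨k, hk, κ, hκ, hcl⟩ := t_CL n N r hr P H hfam χ (Θ (x₀, y)) hχ U hU (by rwa [hH0])
  obtain ⟨η, hη, hball⟩ := good_ball hΘ hχ rfl (lt_min hκ (half_pos one_pos) :
    (0 : ℝ) < min κ (1 / 2))
  obtain ⟨ρ0, hρ0, R, hR1, x, Λ, hxx₀, hret, hperch, hchoice⟩ := hch κ hκ η hη
  have hmem : ∀ (x' : X) (y' : Y), dist x' x₀ ≤ η → dist y' y ≤ η → Θ (x', y') ∈ χ.source ∧
      ‖χ (Θ (x', y'))‖ < min κ (1 / 2) := by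
    intro x' y' h1 h2
    apply hball
    rw [Prod.dist_eq]
    exact max_le h1 h2
  by_cases hper : ∃ b : ℕ, 1 ≤ b ∧ f^[b] x = x
  · -- periodic
    obtain ⟨b, hb, hbx⟩ := hper
    obtain ⟨m, hm1, hxm, s, y1, hs', hy1, hy1'⟩ := hperch b hb hbx
    set z1 := Θ (x, y1) with hz1
    have hz1m : (H s)^[m] z1 = z1 := by rw [hz1, hA, hxm, hy1']
    obtain ⟨hs, hn⟩ := hmem x y1 hxx₀.le hy1.le
    have hp : z1 ∈ Function.periodicPts (H s) :=
      Function.mk_mem_periodicPts (n := m) hm1 hz1m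
    have hmp := Function.minimalPeriod_pos_of_mem_periodicPts hp
    set mp := Function.minimalPeriod (H s) z1 with hmpdef
    classical
    obtain ⟨c, hc, hcm'⟩ := exists_pos_le (Finset.Ico 1 mp)
      (fun i => if (H s)^[i] z1 ∈ χ.source then ‖χ ((H s)^[i] z1) - χ z1‖ else 1) (by
      intro i hi
      rw [Finset.mem_Ico] at hi
      split_ifs with hsrc
      · apply norm_pos_iff.2
        rw [sub_ne_zero]
        intro h5
        have h6 := χ.injOn hsrc hs h5
        exact Function.not_isPeriodicPt_of_pos_of_lt_minimalPeriod (by omega) hi.2 h6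
      · exact one_pos)
    refine hcl s z1 (min (c / 2) (κ / 2)) mp hs' hs
      (hn.trans_le (min_le_left _ _)) (lt_min (half_pos hc) (half_pos hκ))
      ((min_le_right _ _).trans_lt (half_lt_self hκ)) hmp ?_ ?_ ?_
    · rw [hmpdef, Function.iterate_minimalPeriod]
      exact hs
    · rw [hmpdef, Function.iterate_minimalPeriod, sub_self, norm_zero]
      have : 0 < min (c / 2) (κ / 2) := lt_min (half_pos hc) (half_pos hκ)
      positivity
    · intro i hi0 hi1 hsrc
      have h5 := hcm' i (by rw [Finset.mem_Ico]; omega)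
      rw [if_pos hsrc] at h5
      have h6 : min (c / 2) (κ / 2) ≤ c / 2 := min_le_left _ _
      linarith
  · -- not periodic
    push Not at hper
    have hsymm : ∀ i : ℕ, 1 ≤ i → f.symm^[i] x ≠ x := by
      intro i hi h5
      apply hper i hi
      have h6 : f^[i] (f.symm^[i] x) = x := (f.toEquiv.right_inv.iterate i) x
      conv_lhs => rw [← h5]
      exact h6
    obtain ⟨c1, hc1, hc1m⟩ := exists_pos_le (Finset.Ico 1 R) (fun i => dist (f^[i] x) x) (by
      intro i hi
      rw [Finset.mem_Ico] at hi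
      exact dist_pos.2 (hper i hi.1))
    obtain ⟨c2, hc2, hc2m⟩ := exists_pos_le (Finset.Ico 1 R) (fun i => dist (f.symm^[i] x) x) (by
      intro i hi
      rw [Finset.mem_Ico] at hi
      exact dist_pos.2 (hsymm i hi.1))
    set c := min c1 c2 with hc
    have hc0 : 0 < c := lt_min hc1 hc2
    have hc4 : 0 < c / 4 := by linarith
    have hev : ∀ᶠ x' in 𝓝 x, ∀ i ∈ Finset.Ico 1 R, dist (f^[i] x') (f^[i] x) < c / 4 ∧
        dist (f.symm^[i] x') (f.symm^[i] x) < c / 4 := by
      rw [Finset.eventually_all]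
      intro i _
      have h5 : ContinuousAt (f^[i]) x := (f.continuous.iterate i).continuousAt
      have h6 : ContinuousAt (f.symm^[i]) x := (f.symm.continuous.iterate i).continuousAt
      exact (h5.eventually_mem (Metric.ball_mem_nhds _ hc4)).and
        (h6.eventually_mem (Metric.ball_mem_nhds _ hc4))
    obtain ⟨ε0, hε0, hε0'⟩ := Metric.eventually_nhds_iff.1 hev
    set d0 := min (c / 2) ρ0 with hd0
    have hd0' : 0 < d0 := lt_min (half_pos hc0) hρ0
    obtain ⟨ρ1, hρ1, hsep⟩ := sep (X := X) (Y := Y) hΘ hχ hd0'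
    set ρ := min (ρ1 / 2) (κ / 2) with hρ
    have hρ' : 0 < ρ := lt_min (half_pos hρ1) (half_pos hκ)
    have hρκ : ρ < κ := (min_le_right _ _).trans_lt (half_lt_self hκ)
    -- uniform continuity
    have hBc : IsCompact (closedBall ((x₀, y) : X × Y) η) :=
      Metric.isClosed_closedBall.isCompact
    have hco : ContinuousOn (fun p : X × Y => χ (Θ p)) (closedBall ((x₀, y) : X × Y) η) := by
      apply χ.continuousOn.comp hΘ.continuous.continuousOn
      intro p hp
      exact (hball p hp).1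
    have huc := hBc.uniformContinuousOn_of_continuous hco
    rw [Metric.uniformContinuousOn_iff] at huc
    have hκρ : 0 < κ * ρ ^ k := by positivity
    obtain ⟨δ3, hδ3, huc'⟩ := huc (κ * ρ ^ k) hκρ
    set ε := min (min (η - dist x x₀) ε0) (min (c / 4) (δ3 / 2)) with hε
    have hεpos : 0 < ε := lt_min (lt_min (sub_pos.2 hxx₀) hε0) (lt_min hc4 (half_pos hδ3))
    have hεη : ε ≤ η - dist x x₀ := (min_le_left _ _).trans (min_le_left _ _)
    have hεε0 : ε ≤ ε0 := (min_le_left _ _).trans (min_le_right _ _)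
    have hεc : ε ≤ c / 4 := (min_le_right _ _).trans (min_le_left _ _)
    have hεδ : ε ≤ δ3 / 2 := (min_le_right _ _).trans (min_le_right _ _)
    obtain ⟨x1, m, hmR, hx1Λ, hx1mΛ, hx1, hx1m⟩ := hret ε hεpos R
    have hm1 : 1 ≤ m := by omega
    obtain ⟨s, y1, hsκ, hy1, hy1m, hy1r⟩ := hchoice m hmR x1 hx1Λ hx1mΛ
    have hx1' : dist x1 x₀ ≤ η := by
      have := dist_triangle x1 x x₀
      linarith
    have hx1m' : dist (f^[m] x1) x₀ ≤ η := by
      have := dist_triangle (f^[m] x1) x x₀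
      linarith
    obtain ⟨hs, hn⟩ := hmem x1 y1 hx1' hy1.le
    obtain ⟨hs', hn'⟩ := hmem (f^[m] x1) y1 hx1m' hy1.le
    have hit : ∀ i, (H s)^[i] (Θ (x1, y1)) = Θ (f^[i] x1, A s i x1 y1) :=
      fun i => hA s i x1 y1
    have hfar : ∀ i, 0 < i → i < m →
        d0 ≤ dist ((f^[i] x1, A s i x1 y1) : X × Y) (x1, y1) := by
      intro i hi0 him
      rw [Prod.dist_eq]
      by_cases hiR : i < R
      · refine le_trans (min_le_left _ _) (le_trans ?_ (le_max_left _ _))
        have hmemi : i ∈ Finset.Ico 1 R := by rw [Finset.mem_Ico]; omega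
        have h5 := hc1m i hmemi
        have h6 := (hε0' (hx1.trans_le hεε0) i hmemi).1
        have h7 : c ≤ c1 := min_le_left _ _
        have h8 := dist_triangle4 (f^[i] x) (f^[i] x1) x1 x
        rw [dist_comm (f^[i] x) (f^[i] x1)] at h8
        show c / 2 ≤ dist (f^[i] x1) x1
        linarith
      · by_cases hiR2 : m < i + R
        · refine le_trans (min_le_left _ _) (le_trans ?_ (le_max_left _ _))
          have hmemi : m - i ∈ Finset.Ico 1 R := by rw [Finset.mem_Ico]; omega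
          have h5 := hc2m (m - i) hmemi
          have h6 := (hε0' (hx1m.trans_le hεε0) (m - i) hmemi).2
          have h7 : c ≤ c2 := min_le_right _ _
          have h9 : f.symm^[m - i] (f^[m] x1) = f^[i] x1 := by
            have h10 : m = (m - i) + i := by omega
            have h11 : f^[m] x1 = f^[m - i] (f^[i] x1) := by
              conv_lhs => rw [h10]
              exact Function.iterate_add_apply _ _ _ _
            rw [h11]
            exact (f.toEquiv.left_inv.iterate (m - i)) _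
          rw [h9] at h6
          have h8 := dist_triangle4 (f.symm^[m - i] x) (f^[i] x1) x1 x
          rw [dist_comm (f.symm^[m - i] x) (f^[i] x1)] at h8
          show c / 2 ≤ dist (f^[i] x1) x1
          linarith
        · refine le_trans (min_le_right _ _) (le_trans ?_ (le_max_right _ _))
          exact hy1r i (by omega) (by omega)
    refine hcl s (Θ (x1, y1)) ρ m hsκ hs
      (hn.trans_le (min_le_left _ _)) hρ' hρκ hm1 ?_ ?_ ?_
    · rw [hit, hy1m]
      exact hs'
    · rw [hit, hy1m, ← dist_eq_norm]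
      apply huc' (f^[m] x1, y1) _ (x1, y1)
      · rw [mem_closedBall, Prod.dist_eq]
        exact max_le hx1' hy1.le
      · rw [Prod.dist_eq]
        simp only [dist_self]
        have h5 := dist_triangle_right (f^[m] x1) x1 x
        apply max_lt _ hδ3
        linarith
      · rw [mem_closedBall, Prod.dist_eq]
        exact max_le hx1m' hy1.le
    · intro i hi0 him hsrc
      rw [hit] at hsrc ⊢
      have h5 := hsep (x1, y1) _ (hfar i hi0 him) hs (hn.trans_le (min_le_right _ _)) hsrc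
      have h6 : ρ ≤ ρ1 / 2 := min_le_left _ _
      linarith

end Pool.Agent.Q100.Spec
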