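import Pool.Agent.Q100.Spec.Flex

/-!
# The `C^r` closing lemma for fibre motions along a flow with weak specification
-/

set_option autoImplicit false
set_option linter.unusedSectionVars false

open scoped Manifold ContDiff Topology
open Filter Set Metric

universe u v w

namespace Pool.Agent.Q100.Spec

open Pool.Agent.H718R2.G Pool.Agent.W564.SC Pool.Agent.TH290.CL Pool.Agent.W216.SC

/-- Birkhoff sums. -/
noncomputable def bsum {X : Type*} (f : X → X) (τ : X → ℝ) (i : ℕ) (x : X) : ℝ :=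
  ∑ j ∈ Finset.range i, τ (f^[j] x)

/-- `τ` has nonnegative mean values: for every `ε > 0` some Birkhoff average of `τ` is everywhere
`≥ -ε` (for continuous `τ` on a compact space this says that the integral of `τ` is `≥ 0` for all
invariant probability measures). -/
def MeanNonneg {X : Type*} (f : X → X) (τ : X → ℝ) : Prop :=
  ∀ ε : ℝ, 0 < ε → ∃ n : ℕ, 1 ≤ n ∧ ∀ x, -(ε * n) ≤ bsum f τ n x

section sums
variable {X : Type*} {f : X → X} {τ : X → ℝ}

theorem bsum_zero (x : X) : bsum f τ 0 x = 0 := by simp [bsum]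

theorem bsum_succ (i : ℕ) (x : X) : bsum f τ (i + 1) x = bsum f τ i x + τ (f^[i] x) := by
  simp [bsum, Finset.sum_range_succ]

theorem bsum_add (i j : ℕ) (x : X) : bsum f τ (i + j) x = bsum f τ i x + bsum f τ j (f^[i] x) := by
  induction j with
  | zero => simp [bsum_zero]
  | succ j ih =>
    rw [← add_assoc, bsum_succ, ih, bsum_succ, ← Function.iterate_add_apply, add_comm j i]
    ring

theorem bsum_ge {B : ℝ} (hB : ∀ x, -B ≤ τ x) (i : ℕ) (x : X) : -(B * i) ≤ bsum f τ i x := by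
  induction i with
  | zero => simp [bsum_zero]
  | succ i ih =>
    rw [bsum_succ]
    have := hB (f^[i] x)
    push_cast
    linarith

theorem bsum_mul {n : ℕ} {ε : ℝ} (h : ∀ x, -(ε * n) ≤ bsum f τ n x) (q : ℕ) (x : X) :
    -(ε * n * q) ≤ bsum f τ (n * q) x := by
  induction q with
  | zero => simp [bsum_zero]
  | succ q ih =>
    rw [Nat.mul_succ, bsum_add]
    have := h (f^[n * q] x)
    push_cast
    linarith

/-- uniform lower bound of the Birkhoff sums -/
theorem lower (hm : MeanNonneg f τ) {B : ℝ} (hB0 : 0 ≤ B) (hB : ∀ x, -B ≤ τ x) (ε : ℝ)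
    (hε : 0 < ε) : ∃ C : ℝ, 0 ≤ C ∧ ∀ (i : ℕ) (x : X), -(ε * i) - C ≤ bsum f τ i x := by
  obtain ⟨n, hn, h⟩ := hm ε hε
  refine ⟨B * n, by positivity, fun i x => ?_⟩
  have e : i = n * (i / n) + i % n := (Nat.div_add_mod i n).symm
  have h1 := bsum_mul h (i / n) x
  have h2 := bsum_ge (f := f) hB (i % n) (f^[n * (i / n)] x)
  have h3 : bsum f τ i x = bsum f τ (n * (i / n)) x + bsum f τ (i % n) (f^[n * (i / n)] x) := by
    rw [← bsum_add, ← e]
  have h4 : ((i % n : ℕ) : ℝ) ≤ n := by exact_mod_cast (Nat.mod_lt i (by omega)).le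
  have h5 : B * ((i % n : ℕ) : ℝ) ≤ B * n := mul_le_mul_of_nonneg_left h4 hB0
  have h6 : (n : ℝ) * ((i / n : ℕ) : ℝ) ≤ i := by exact_mod_cast Nat.mul_div_le i n
  have h7 : ε * (n * ((i / n : ℕ) : ℝ)) ≤ ε * i := mul_le_mul_of_nonneg_left h6 hε.le
  rw [h3]
  nlinarith

end sums

section family
variable {n : ℕ} {N : Type u} [TopologicalSpace N] [ChartedSpace (V n) N] [IsManifold (𝓡 n) ∞ N]
  {ψ : ℝ → N → N}

theorem at_smooth (hψ : IsFlow n N ψ) (r : ℕ∞) (s : ℝ) : ContMDiff (𝓡 n) (𝓡 n) r (ψ s) := by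
  have hr : (r : WithTop ℕ∞) ≤ ∞ := by exact_mod_cast le_top
  have h1 : ContMDiff (𝓡 n) (𝓘(ℝ, ℝ).prod (𝓡 n)) ∞ (fun y : N => ((s, y) : ℝ × N)) :=
    contMDiff_const.prodMk contMDiff_id
  exact (hψ.smooth.comp h1).of_le hr

/-- the time `s` map of a smooth flow -/
noncomputable def timeMap (hψ : IsFlow n N ψ) (r : ℕ∞) (s : ℝ) : DiffM n N r where
  toFun := ψ s
  invFun := ψ (-s)
  left_inv y := by rw [← hψ.add, neg_add_cancel, hψ.zero]
  right_inv y := by rw [← hψ.add, add_neg_cancel, hψ.zero]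
  contMDiff_toFun := at_smooth hψ r s
  contMDiff_invFun := at_smooth hψ r (-s)

theorem timeMap_apply (hψ : IsFlow n N ψ) (r : ℕ∞) (s : ℝ) (y : N) : timeMap hψ r s y = ψ s y := rfl

/-- the family `ψ_s ∘ F` -/
noncomputable def famH (hψ : IsFlow n N ψ) {r : ℕ∞} (F : DiffM n N r) (s : ℝ) : DiffM n N r :=
  F.trans (timeMap hψ r s)

theorem famH_apply (hψ : IsFlow n N ψ) {r : ℕ∞} (F : DiffM n N r) (s : ℝ) (y : N) :
    famH hψ F s y = ψ s (F y) := rfl

theorem famH_zero (hψ : IsFlow n N ψ) {r : ℕ∞} (F : DiffM n N r) : famH hψ F 0 = F := by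
  apply Diffeomorph.ext
  intro y
  rw [famH_apply, hψ.zero]

theorem famH_isFam (hψ : IsFlow n N ψ) {r : ℕ∞} (F : DiffM n N r) : IsFam n N r (famH hψ F) := by
  intro y
  have hr : (r : WithTop ℕ∞) ≤ ∞ := by exact_mod_cast le_top
  have h1 : ContMDiffAt (𝓘(ℝ, ℝ).prod (𝓡 n)) (𝓡 n) r (fun q : ℝ × N => F q.2) ((0 : ℝ), y) :=
    F.contMDiff.contMDiffAt.comp _ contMDiffAt_snd
  have h2 : ContMDiffAt (𝓘(ℝ, ℝ).prod (𝓡 n)) (𝓘(ℝ, ℝ).prod (𝓡 n)) r
      (fun q : ℝ × N => ((q.1, F q.2) : ℝ × N)) ((0 : ℝ), y) := contMDiffAt_fst.prodMk h1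
  exact ContMDiffAt.comp (g := fun q : ℝ × N => ψ q.1 q.2)
    (f := fun q : ℝ × N => ((q.1, F q.2) : ℝ × N)) _ (hψ.smooth.of_le hr).contMDiffAt h2

end family

section
variable {n : ℕ} {N : Type u} [TopologicalSpace N] [T2Space N] [CompactSpace N]
  [ChartedSpace (V n) N] [IsManifold (𝓡 n) ∞ N] {ψ : ℝ → N → N}
  {X : Type v} {Y : Type w} [MetricSpace X] [CompactSpace X] [MetricSpace Y] [CompactSpace Y]

theorem iter_H {r : ℕ∞} (hψ : IsFlow n N ψ) {F : DiffM n N r} {f : X ≃ₜ X} {τ : X → ℝ}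
    {φ : Flow ℝ Y} {Θ : X × Y → N} (hflow : ∀ t x y, ψ t (Θ (x, y)) = Θ (x, φ t y))
    (hF : ∀ x y, F (Θ (x, y)) = Θ (f x, φ (τ x) y)) (s : ℝ) (i : ℕ) (x : X) (y : Y) :
    (famH hψ F s)^[i] (Θ (x, y)) = Θ (f^[i] x, φ (bsum f τ i x + i * s) y) := by
  induction i with
  | zero =>
    rw [bsum_zero, Nat.cast_zero, zero_mul, add_zero, flow_zero]
    rfl
  | succ i ih =>
    rw [Function.iterate_succ_apply', ih, famH_apply, hF, hflow, ← flow_add, ← flow_add,
      Function.iterate_succ_apply', bsum_succ]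
    congr 3
    push_cast
    ring

theorem core {r : ℕ∞} (hr : 1 ≤ r) (F : DiffM n N r) (hψ : IsFlow n N ψ) {Θ : X × Y → N}
    (hΘ : Topology.IsEmbedding Θ) {f : X ≃ₜ X} {τ : X → ℝ} (hτ : Continuous τ) {φ : Flow ℝ Y}
    (hsp : WeakSpec φ) (hmo : ManyOrbits φ) (hflow : ∀ t x y, ψ t (Θ (x, y)) = Θ (x, φ t y))
    (hF : ∀ x y, F (Θ (x, y)) = Θ (f x, φ (τ x) y)) (hmean : MeanNonneg f τ) (x : X) (y : Y)
    (hx : NonWand f x) : Closable n N r F (Θ (x, y)) := by
  intro U hU hFU
  obtain ⟨χ, hχ⟩ := Pool.Agent.W699.SC.gc n N (Θ (x, y))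
  obtain ⟨k, hk, κ, hκ, hcl⟩ := t_CL n N r hr ℝ (famH hψ F) (famH_isFam hψ F) χ (Θ (x, y)) hχ U hU
    (by rwa [famH_zero])
  obtain ⟨η, hη, hball⟩ := good_ball hΘ hχ rfl (lt_min hκ (half_pos one_pos) :
    (0 : ℝ) < min κ (1 / 2))
  obtain ⟨ρ0, R0, B0, hρ0, hR0, hB0, hflex⟩ := flex hsp hmo y η hη
  -- bounds of the Birkhoff sums
  obtain ⟨B, hB0', hB⟩ : ∃ B : ℝ, 0 ≤ B ∧ ∀ x', -B ≤ τ x' := by
    obtain ⟨B, hB⟩ := (isCompact_univ.image hτ).isBounded.exists_norm_le
    refine ⟨|B|, abs_nonneg _, fun x' => ?_⟩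
    have h1 := hB (τ x') (mem_image_of_mem _ (mem_univ x'))
    rw [Real.norm_eq_abs] at h1
    have h2 := neg_abs_le (τ x')
    have h3 := le_abs_self B
    linarith
  obtain ⟨C, hC0, hC⟩ := lower hmean hB0' hB (κ / 4) (by linarith)
  -- after `R` steps the drift is larger than `R0`
  obtain ⟨R, hR1, hR⟩ : ∃ R : ℕ, 1 ≤ R ∧ R0 + C ≤ κ / 4 * R := by
    obtain ⟨R, hR⟩ := exists_nat_ge ((R0 + C) / (κ / 4))
    rw [div_le_iff₀ (by linarith)] at hR
    refine ⟨R + 1, by omega, ?_⟩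
    push_cast
    nlinarith
  -- the choice of the parameters
  have hchoice : ∀ m : ℕ, 2 * R ≤ m → B0 / (κ / 4) < m → ∀ x' : X, ∃ (s : ℝ) (p : Y), ‖s‖ < κ ∧
      dist p y < η ∧ φ (bsum f τ m x' + m * s) p = p ∧
      ∀ i : ℕ, R ≤ i → i + R ≤ m → ρ0 ≤ dist (φ (bsum f τ i x' + i * s) p) p := by
    intro m hm hm' x'
    have hm0 : (0 : ℝ) < m := by
      have : 0 < m := by omega
      exact_mod_cast this
    have h1 : -(κ / 4 * m) - C ≤ bsum f τ m x' := hC m x'
    have hmR : (R : ℝ) ≤ m := by exact_mod_cast (by omega : R ≤ m)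
    have h2 : 0 ≤ bsum f τ m x' + m * (κ / 2) := by
      have h3 : κ / 4 * R ≤ κ / 4 * m := mul_le_mul_of_nonneg_left hmR (by linarith)
      have h4 : (m : ℝ) * (κ / 2) = κ / 4 * m + κ / 4 * m := by ring
      linarith
    obtain ⟨T, p, hT1, hT2, hpy, hTp, hfar⟩ := hflex _ h2
    set s := (T - bsum f τ m x') / m with hs
    have hms : m * s = T - bsum f τ m x' := by
      rw [hs]; field_simp
    have hs1 : κ / 2 ≤ s := by
      rw [hs, le_div_iff₀ hm0]
      linarith
    have hs2 : s < κ := by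
      rw [hs, div_lt_iff₀ hm0]
      rw [div_lt_iff₀ (by linarith)] at hm'
      have : (m : ℝ) * (κ / 2) + m * (κ / 4) ≤ κ * m := by nlinarith
      linarith
    have hT : bsum f τ m x' + m * s = T := by rw [hms]; ring
    refine ⟨s, p, ?_, hpy, ?_, fun i hi hi' => ?_⟩
    · rw [Real.norm_eq_abs, abs_of_pos (by linarith)]
      exact hs2
    · rw [hT]; exact hTp
    · have hlow : ∀ (j : ℕ) (x'' : X), R ≤ j → R0 ≤ bsum f τ j x'' + j * s := by
        intro j x'' hj
        have h5 := hC j x''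
        have h6 : (R : ℝ) ≤ j := by exact_mod_cast hj
        have h7 : κ / 4 * R ≤ κ / 4 * j := mul_le_mul_of_nonneg_left h6 (by linarith)
        have h8 : (j : ℝ) * (κ / 2) ≤ j * s := mul_le_mul_of_nonneg_left hs1 (by positivity)
        have h9 : (j : ℝ) * (κ / 2) = κ / 4 * j + κ / 4 * j := by ring
        linarith
      apply hfar
      · exact hlow i x' hi
      · have h5 := hlow (m - i) (f^[i] x') (by omega)
        have h6 : bsum f τ m x' = bsum f τ i x' + bsum f τ (m - i) (f^[i] x') := by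
          rw [← bsum_add, Nat.add_sub_cancel' (by omega)]
        have h7 : ((m - i : ℕ) : ℝ) = m - i := by
          rw [Nat.cast_sub (by omega)]
        rw [h7] at h5
        rw [← hT, h6]
        linarith
  have hmem : ∀ (x' : X) (y' : Y), dist x' x ≤ η → dist y' y ≤ η → Θ (x', y') ∈ χ.source ∧
      ‖χ (Θ (x', y'))‖ < min κ (1 / 2) := by
    intro x' y' h1 h2
    apply hball
    rw [Prod.dist_eq]
    exact max_le h1 h2
  obtain ⟨M0, hM0⟩ := exists_nat_gt (B0 / (κ / 4))
  by_cases hper : ∃ b : ℕ, 1 ≤ b ∧ f^[b] x = x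
  · -- periodic
    obtain ⟨b, hb, hbx⟩ := hper
    set m := b * (2 * R + M0) with hm
    have hm0 : 1 * (2 * R + M0) ≤ b * (2 * R + M0) := Nat.mul_le_mul_right _ hb
    have hm1 : 1 ≤ m := Nat.mul_pos hb (by omega)
    have hm2 : 2 * R ≤ m := by omega
    have hm3 : B0 / (κ / 4) < m := by
      have : (M0 : ℝ) ≤ m := by exact_mod_cast (by omega : M0 ≤ m)
      linarith
    obtain ⟨s, y1, hs', hy1, hy1', _⟩ := hchoice m hm2 hm3 x
    have hxm : f^[m] x = x := by
      have h4 : Function.IsPeriodicPt f b x := hbx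
      exact h4.mul_const (2 * R + M0)
    set z1 := Θ (x, y1) with hz1
    have hz1m : (famH hψ F s)^[m] z1 = z1 := by rw [hz1, iter_H hψ hflow hF, hxm, hy1']
    obtain ⟨hs, hn⟩ := hmem x y1 (by rw [dist_self]; exact hη.le) hy1.le
    have hp : z1 ∈ Function.periodicPts (famH hψ F s) :=
      Function.mk_mem_periodicPts (n := m) hm1 hz1m
    have hmp := Function.minimalPeriod_pos_of_mem_periodicPts hp
    set mp := Function.minimalPeriod (famH hψ F s) z1 with hmpdef
    classical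
    obtain ⟨c, hc, hcm'⟩ := exists_pos_le (Finset.Ico 1 mp)
      (fun i => if (famH hψ F s)^[i] z1 ∈ χ.source then ‖χ ((famH hψ F s)^[i] z1) - χ z1‖ else 1) (by
      intro i hi
      rw [Finset.mem_Ico] at hi
      split_ifs with hsrc
      · apply norm_pos_iff.2
        rw [sub_ne_zero]
        intro h5
        have h6 := χ.injOn hsrc hs h5
        exact Function.not_isPeriodicPt_of_pos_of_lt_minimalPeriod (by omega) hi.2 h6
      · exact one_pos)
    refine hcl s z1 (min (c / 2) (κ / 2)) mp hs' hs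
      (hn.trans_le (min_le_left _ _)) (lt_min (half_pos hc) (half_pos hκ))
      ((min_le_right _ _).trans_lt (half_lt_self hκ)) hmp ?_ ?_ ?_
    · rw [hmpdef, Function.iterate_minimalPeriod]
      exact hs
    · rw [hmpdef, Function.iterate_minimalPeriod, sub_self, norm_zero]
      have : 0 < min (c / 2) (κ / 2) := lt_min (half_pos hc) (half_pos hκ)
      positivity
    · intro i hi0 hi1 hsrc
      have h5 := hcm' i (by rw [Finset.mem_Ico]; omega)
      rw [if_pos hsrc] at h5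
      have h6 : min (c / 2) (κ / 2) ≤ c / 2 := min_le_left _ _
      linarith
  · -- not periodic
    push Not at hper
    have hsymm : ∀ i : ℕ, 1 ≤ i → f.symm^[i] x ≠ x := by
      intro i hi h5
      apply hper i hi
      have h6 : f^[i] (f.symm^[i] x) = x := (f.toEquiv.right_inv.iterate i) x
      conv_lhs => rw [← h5]
      exact h6
    obtain ⟨c1, hc1, hc1m⟩ := exists_pos_le (Finset.Ico 1 R) (fun i => dist (f^[i] x) x) (by
      intro i hi
      rw [Finset.mem_Ico] at hi
      exact dist_pos.2 (hper i hi.1))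
    obtain ⟨c2, hc2, hc2m⟩ := exists_pos_le (Finset.Ico 1 R) (fun i => dist (f.symm^[i] x) x) (by
      intro i hi
      rw [Finset.mem_Ico] at hi
      exact dist_pos.2 (hsymm i hi.1))
    set c := min c1 c2 with hc
    have hc0 : 0 < c := lt_min hc1 hc2
    have hc4 : 0 < c / 4 := by linarith
    have hev : ∀ᶠ x' in 𝓝 x, ∀ i ∈ Finset.Ico 1 R, dist (f^[i] x') (f^[i] x) < c / 4 ∧
        dist (f.symm^[i] x') (f.symm^[i] x) < c / 4 := by
      rw [Finset.eventually_all]
      intro i _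
      have h5 : ContinuousAt (f^[i]) x := (f.continuous.iterate i).continuousAt
      have h6 : ContinuousAt (f.symm^[i]) x := (f.symm.continuous.iterate i).continuousAt
      exact (h5.eventually_mem (Metric.ball_mem_nhds _ hc4)).and
        (h6.eventually_mem (Metric.ball_mem_nhds _ hc4))
    obtain ⟨ε0, hε0, hε0'⟩ := Metric.eventually_nhds_iff.1 hev
    set d0 := min (c / 2) ρ0 with hd0
    have hd0' : 0 < d0 := lt_min (half_pos hc0) hρ0
    obtain ⟨ρ1, hρ1, hsep⟩ := sep (X := X) (Y := Y) hΘ hχ hd0'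
    set ρ := min (ρ1 / 2) (κ / 2) with hρ
    have hρ' : 0 < ρ := lt_min (half_pos hρ1) (half_pos hκ)
    have hρκ : ρ < κ := (min_le_right _ _).trans_lt (half_lt_self hκ)
    -- uniform continuity
    have hBc : IsCompact (closedBall ((x, y) : X × Y) η) :=
      Metric.isClosed_closedBall.isCompact
    have hco : ContinuousOn (fun p : X × Y => χ (Θ p)) (closedBall ((x, y) : X × Y) η) := by
      apply χ.continuousOn.comp hΘ.continuous.continuousOn
      intro p hp
      exact (hball p hp).1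
    have huc := hBc.uniformContinuousOn_of_continuous hco
    rw [Metric.uniformContinuousOn_iff] at huc
    have hκρ : 0 < κ * ρ ^ k := by positivity
    obtain ⟨δ3, hδ3, huc'⟩ := huc (κ * ρ ^ k) hκρ
    set ε := min (min η ε0) (min (c / 4) (δ3 / 2)) with hε
    have hεpos : 0 < ε := lt_min (lt_min hη hε0) (lt_min hc4 (half_pos hδ3))
    have hεη : ε ≤ η := (min_le_left _ _).trans (min_le_left _ _)
    have hεε0 : ε ≤ ε0 := (min_le_left _ _).trans (min_le_right _ _)
    have hεc : ε ≤ c / 4 := (min_le_right _ _).trans (min_le_left _ _)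
    have hεδ : ε ≤ δ3 / 2 := (min_le_right _ _).trans (min_le_right _ _)
    obtain ⟨x1, m, hmR, hm1, hx1, hx1m⟩ := nonwand_long f hx hper ε hεpos (2 * R + M0)
    have hm3 : B0 / (κ / 4) < m := by
      have : (M0 : ℝ) ≤ m := by exact_mod_cast (by omega : M0 ≤ m)
      linarith
    obtain ⟨s, y1, hsκ, hy1, hy1m, hy1r⟩ := hchoice m (by omega) hm3 x1
    obtain ⟨hs, hn⟩ := hmem x1 y1 (hx1.le.trans hεη) hy1.le
    obtain ⟨hs', hn'⟩ := hmem (f^[m] x1) y1 (hx1m.le.trans hεη) hy1.le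
    have hit : ∀ i, (famH hψ F s)^[i] (Θ (x1, y1)) = Θ (f^[i] x1, φ (bsum f τ i x1 + i * s) y1) :=
      fun i => iter_H hψ hflow hF s i x1 y1
    have hfar : ∀ i, 0 < i → i < m →
        d0 ≤ dist ((f^[i] x1, φ (bsum f τ i x1 + i * s) y1) : X × Y) (x1, y1) := by
      intro i hi0 him
      rw [Prod.dist_eq]
      by_cases hiR : i < R
      · refine le_trans (min_le_left _ _) (le_trans ?_ (le_max_left _ _))
        have hmemi : i ∈ Finset.Ico 1 R := by rw [Finset.mem_Ico]; omega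
        have h5 := hc1m i hmemi
        have h6 := (hε0' (hx1.trans_le hεε0) i hmemi).1
        have h7 : c ≤ c1 := min_le_left _ _
        have h8 := dist_triangle4 (f^[i] x) (f^[i] x1) x1 x
        rw [dist_comm (f^[i] x) (f^[i] x1)] at h8
        show c / 2 ≤ dist (f^[i] x1) x1
        linarith
      · by_cases hiR2 : m < i + R
        · refine le_trans (min_le_left _ _) (le_trans ?_ (le_max_left _ _))
          have hmemi : m - i ∈ Finset.Ico 1 R := by rw [Finset.mem_Ico]; omega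
          have h5 := hc2m (m - i) hmemi
          have h6 := (hε0' (hx1m.trans_le hεε0) (m - i) hmemi).2
          have h7 : c ≤ c2 := min_le_right _ _
          have h9 : f.symm^[m - i] (f^[m] x1) = f^[i] x1 := by
            have h10 : m = (m - i) + i := by omega
            have h11 : f^[m] x1 = f^[m - i] (f^[i] x1) := by
              conv_lhs => rw [h10]
              exact Function.iterate_add_apply _ _ _ _
            rw [h11]
            exact (f.toEquiv.left_inv.iterate (m - i)) _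
          rw [h9] at h6
          have h8 := dist_triangle4 (f.symm^[m - i] x) (f^[i] x1) x1 x
          rw [dist_comm (f.symm^[m - i] x) (f^[i] x1)] at h8
          show c / 2 ≤ dist (f^[i] x1) x1
          linarith
        · refine le_trans (min_le_right _ _) (le_trans ?_ (le_max_right _ _))
          exact hy1r i (by omega) (by omega)
    refine hcl s (Θ (x1, y1)) ρ m hsκ hs
      (hn.trans_le (min_le_left _ _)) hρ' hρκ hm1 ?_ ?_ ?_
    · rw [hit, hy1m]
      exact hs'
    · rw [hit, hy1m, ← dist_eq_norm]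
      apply huc' (f^[m] x1, y1) _ (x1, y1)
      · rw [mem_closedBall, Prod.dist_eq]
        exact max_le (hx1.le.trans hεη) hy1.le
      · rw [Prod.dist_eq]
        simp only [dist_self]
        have h5 := dist_triangle_right (f^[m] x1) x1 x
        apply max_lt _ hδ3
        linarith
      · rw [mem_closedBall, Prod.dist_eq]
        exact max_le (hx1m.le.trans hεη) hy1.le
    · intro i hi0 him hsrc
      rw [hit] at hsrc ⊢
      have h5 := hsep (x1, y1) _ (hfar i hi0 him) hs (hn.trans_le (min_le_right _ _)) hsrc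
      have h6 : ρ ≤ ρ1 / 2 := min_le_left _ _
      linarith

end

end Pool.Agent.Q100.Spec

namespace Pool.Agent.Q100.Spec

open Pool.Agent.H718R2.G Pool.Agent.W564.SC Pool.Agent.TH290.CL Pool.Agent.W216.SC

section
variable {n : ℕ} {N : Type u} [TopologicalSpace N] [T2Space N] [CompactSpace N]
  [ChartedSpace (V n) N] [IsManifold (𝓡 n) ∞ N] {ψ : ℝ → N → N}
  {X : Type v} {Y : Type w} [MetricSpace X] [CompactSpace X] [MetricSpace Y] [CompactSpace Y]

/-- the reversed smooth flow -/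
theorem rev_flow (hψ : IsFlow n N ψ) : IsFlow n N (fun t y => ψ (-t) y) where
  smooth := by
    have h1 : ContMDiff (𝓘(ℝ, ℝ).prod (𝓡 n)) (𝓘(ℝ, ℝ).prod (𝓡 n)) ∞
        (fun q : ℝ × N => ((-q.1, q.2) : ℝ × N)) := by
      apply ContMDiff.prodMk
      · exact (contDiff_neg.contMDiff).comp contMDiff_fst
      · exact contMDiff_snd
    exact hψ.smooth.comp h1
  zero y := by
    show ψ (-0) y = y
    rw [neg_zero, hψ.zero]
  add s t y := by
    show ψ (-(s + t)) y = ψ (-s) (ψ (-t) y)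
    rw [← hψ.add, neg_add]

theorem core' {r : ℕ∞} (hr : 1 ≤ r) (F : DiffM n N r) (hψ : IsFlow n N ψ) {Θ : X × Y → N}
    (hΘ : Topology.IsEmbedding Θ) {f : X ≃ₜ X} {τ : X → ℝ} (hτ : Continuous τ) {φ : Flow ℝ Y}
    (hsp : WeakSpec φ) (hmo : ManyOrbits φ) (hflow : ∀ t x y, ψ t (Θ (x, y)) = Θ (x, φ t y))
    (hF : ∀ x y, F (Θ (x, y)) = Θ (f x, φ (τ x) y))
    (hmean : MeanNonneg f τ ∨ MeanNonneg f (fun x => -τ x)) (x : X) (y : Y)
    (hx : NonWand f x) : Closable n N r F (Θ (x, y)) := by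
  rcases hmean with hmean | hmean
  · exact core hr F hψ hΘ hτ hsp hmo hflow hF hmean x y hx
  · refine core hr F (rev_flow hψ) hΘ hτ.neg (rev_spec hsp) (rev_many hmo) (fun t x y => ?_)
      (fun x y => ?_) hmean x y hx
    · exact hflow (-t) x y
    · show F (Θ (x, y)) = Θ (f x, φ (-(-(τ x))) y)
      rw [neg_neg]
      exact hF x y

end

end Pool.Agent.Q100.Spec
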