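import Pool.Agent.Q100.Spec.General
import Pool.Agent.Q100.Spec.Choose

/-!
# Two flows: no condition on the time functions
-/

set_option autoImplicit false
set_option linter.unusedSectionVars false

open scoped Manifold ContDiff Topology
open Filter Set Metric

universe u v w w'

namespace Pool.Agent.Q100.Spec

open Pool.Agent.H718R2.G Pool.Agent.W564.SC Pool.Agent.TH290.CL Pool.Agent.W216.SC

section flex
variable {Y : Type w} [MetricSpace Y] {φ : Flow ℝ Y}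

theorem flex_two (hs : WeakSpec φ) (hm : ManyOrbits φ) (y : Y) (η : ℝ) (hη : 0 < η) :
    ∃ ρ R B : ℝ, 0 < ρ ∧ 0 ≤ R ∧ 0 ≤ B ∧ ∀ T₀ : ℝ, T₀ ≠ 0 → ∃ (T : ℝ) (p : Y),
      |T - T₀| ≤ B ∧ |T₀| ≤ |T| ∧ dist p y < η ∧ φ T p = p ∧
      ∀ t, (∀ l : ℤ, R ≤ |t - l * T|) → ρ ≤ dist (φ t p) p := by
  obtain ⟨ρ, R, B, hρ, hR, hB, h⟩ := flex hs hm y η hη
  refine ⟨ρ, R, B, hρ, hR, hB, fun T₀ hT₀ => ?_⟩
  obtain ⟨T, p, h1, h2, h3, h4, h5⟩ := h |T₀| (abs_nonneg _)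
  have hT : 0 < T := lt_of_lt_of_le (abs_pos.2 hT₀) h1
  have key : ∀ t, (∀ l : ℤ, R ≤ |t - l * T|) → ρ ≤ dist (φ t p) p := by
    intro t ht
    have h6 := Int.floor_le (t / T)
    rw [le_div_iff₀ hT] at h6
    have h7 := (Int.lt_floor_add_one (t / T)).le
    rw [div_le_iff₀ hT] at h7
    have h8 := ht ⌊t / T⌋
    rw [abs_of_nonneg (by linarith)] at h8
    have h9 := ht (⌊t / T⌋ + 1)
    push_cast at h9
    rw [abs_of_nonpos (by linarith)] at h9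
    have h10 : φ t p = φ (t - ⌊t / T⌋ * T) (φ (⌊t / T⌋ * T) p) := by
      rw [← flow_add, sub_add_cancel]
    rw [h10, per_zint h4]
    exact h5 _ h8 (by linarith)
  rcases lt_or_gt_of_ne hT₀ with hneg | hpos
  · rw [abs_of_neg hneg] at h1 h2
    refine ⟨-T, p, ?_, ?_, h3, ?_, ?_⟩
    · rw [abs_le]
      constructor <;> linarith
    · rw [abs_of_neg hneg, abs_neg, abs_of_pos hT]
      exact h1
    · have h6 : φ (-T) (φ T p) = p := flow_neg _ _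
      rwa [h4] at h6
    · intro t ht
      apply key
      intro l
      have := ht (-l)
      push_cast at this
      rwa [neg_mul_neg] at this
  · rw [abs_of_pos hpos] at h1 h2
    refine ⟨T, p, ?_, ?_, h3, h4, key⟩
    · rw [abs_le]
      constructor <;> linarith
    · rw [abs_of_pos hpos, abs_of_pos hT]
      exact h1

end flex

/-- from the approximate drift to the exact one, one flow -/
theorem adjust {Y : Type w} [MetricSpace Y] {φ : Flow ℝ Y} {y : Y} {η ρ R B κ C : ℝ}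
    (hκ : 0 < κ) (hR : 0 ≤ R) (hB : 0 ≤ B) (hC : 0 ≤ C)
    (hflex : ∀ T₀ : ℝ, T₀ ≠ 0 → ∃ (T : ℝ) (p : Y),
      |T - T₀| ≤ B ∧ |T₀| ≤ |T| ∧ dist p y < η ∧ φ T p = p ∧
      ∀ t, (∀ l : ℤ, R ≤ |t - l * T|) → ρ ≤ dist (φ t p) p)
    {L : ℕ} (hL : 16 * (C + κ) ≤ κ * L) {m : ℕ} (hm : 1 ≤ m) (hm1 : 2 * B < κ * m)
    (hm2 : 16 * R ≤ κ * m) {S : ℕ → ℝ} (hS : ∀ i, i ≤ m → |S i| ≤ C * i) {s₀ : ℝ}
    (hs₀ : |s₀| ≤ κ / 2) (hT : κ * m / 16 ≤ |tt S s₀ m|) :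
    ∃ (s : ℝ) (p : Y), |s| < κ ∧ dist p y < η ∧ φ (tt S s m) p = p ∧
      ∀ i : ℕ, i ≤ m → (∀ l : ℤ, |l| ≤ L → R + B + L * B < |tt S s₀ i - l * tt S s₀ m|) →
        ρ ≤ dist (φ (tt S s i) p) p := by
  have hm0 : (0 : ℝ) < m := by exact_mod_cast hm
  have hκm : 0 < κ * m := by positivity
  have hT0 : tt S s₀ m ≠ 0 := by
    intro h
    rw [h, abs_zero] at hT
    linarith
  obtain ⟨T, p, h1, h2, h3, h4, h5⟩ := hflex _ hT0
  obtain ⟨e, he⟩ : ∃ e : ℝ, e = (T - tt S s₀ m) / m := ⟨_, rfl⟩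
  have hme : m * e = T - tt S s₀ m := by rw [he]; field_simp
  have hme' : |e| * m ≤ B := by
    have : |m * e| = |e| * m := by rw [abs_mul, abs_of_pos hm0, mul_comm]
    rw [← this, hme]
    exact h1
  have hs : |s₀ + e| < κ := by
    have h6 := abs_add_le s₀ e
    have h7 : |e| * m * 2 < κ * m := by linarith
    have h8 : |e| * 2 < κ := by nlinarith
    linarith
  have hTT : tt S (s₀ + e) m = T := by
    have : tt S (s₀ + e) m = tt S s₀ m + m * e := by unfold tt; ring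
    rw [this, hme]
    ring
  refine ⟨s₀ + e, p, hs, h3, by rw [hTT]; exact h4, fun i hi hl => ?_⟩
  apply h5
  intro l
  have him : (i : ℝ) ≤ m := by exact_mod_cast hi
  have hti : |tt S (s₀ + e) i - tt S s₀ i| ≤ B := by
    have h6 : tt S (s₀ + e) i - tt S s₀ i = i * e := by unfold tt; ring
    rw [h6, abs_mul, Nat.abs_cast]
    have := mul_le_mul_of_nonneg_left him (abs_nonneg e)
    linarith
  rcases le_or_gt |l| (L : ℤ) with hlL | hlL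
  · have h6 := hl l hlL
    have hlr : |(l : ℝ)| ≤ L := by exact_mod_cast hlL
    have h7 : |(l : ℝ) * T - l * tt S s₀ m| ≤ L * B := by
      rw [← mul_sub, abs_mul]
      exact mul_le_mul hlr h1 (abs_nonneg _) (by positivity)
    have e1 : tt S s₀ i - l * tt S s₀ m = -(tt S (s₀ + e) i - tt S s₀ i) +
        (tt S (s₀ + e) i - l * T) + (l * T - l * tt S s₀ m) := by ring
    have h8 : |tt S s₀ i - l * tt S s₀ m| ≤ |tt S (s₀ + e) i - tt S s₀ i| +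
        |tt S (s₀ + e) i - l * T| + |l * T - l * tt S s₀ m| := by
      rw [e1]
      refine (abs_add_le _ _).trans ?_
      have := abs_add_le (-(tt S (s₀ + e) i - tt S s₀ i)) (tt S (s₀ + e) i - l * T)
      rw [abs_neg] at this
      linarith
    linarith
  · have hlr : (L : ℝ) + 1 ≤ |(l : ℝ)| := by exact_mod_cast hlL
    have h6 : κ * m / 16 ≤ |T| := hT.trans h2
    have h7 : ((L : ℝ) + 1) * (κ * m / 16) ≤ |(l : ℝ)| * |T| :=
      mul_le_mul hlr h6 (by positivity) (abs_nonneg _)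
    have h8 : |tt S (s₀ + e) i| ≤ (C + κ) * m := by
      have h9 := abs_add_le (S i) (i * (s₀ + e))
      have h10 := hS i hi
      have h11 : |(i : ℝ) * (s₀ + e)| ≤ m * κ := by
        rw [abs_mul, Nat.abs_cast]
        exact mul_le_mul him hs.le (abs_nonneg _) hm0.le
      have h12 : C * i ≤ C * m := mul_le_mul_of_nonneg_left him hC
      unfold tt
      linarith
    have h9 : |(l : ℝ) * T| - |tt S (s₀ + e) i| ≤ |tt S (s₀ + e) i - l * T| := by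
      rw [abs_sub_comm]
      exact abs_sub_abs_le_abs_sub _ _
    rw [abs_mul] at h9
    have h10 : (C + κ) * m ≤ (L : ℝ) * (κ * m / 16) := by
      have : 16 * (C + κ) * m ≤ κ * L * m := mul_le_mul_of_nonneg_right hL hm0.le
      linarith
    linarith

section
variable {n : ℕ} {N : Type u} [TopologicalSpace N] [T2Space N] [CompactSpace N]
  [ChartedSpace (V n) N] [IsManifold (𝓡 n) ∞ N] {ψ₁ ψ₂ : ℝ → N → N}
  {X : Type v} {Y₁ : Type w} {Y₂ : Type w'} [MetricSpace X] [CompactSpace X]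
  [MetricSpace Y₁] [CompactSpace Y₁] [MetricSpace Y₂] [CompactSpace Y₂]

/-- the family `ψ₁_s₁ ∘ ψ₂_s₂ ∘ F` -/
noncomputable def famT (h₁ : IsFlow n N ψ₁) (h₂ : IsFlow n N ψ₂) {r : ℕ∞} (F : DiffM n N r)
    (s : ℝ × ℝ) : DiffM n N r :=
  famH h₁ (famH h₂ F s.2) s.1

theorem famT_apply (h₁ : IsFlow n N ψ₁) (h₂ : IsFlow n N ψ₂) {r : ℕ∞} (F : DiffM n N r)
    (s : ℝ × ℝ) (y : N) : famT h₁ h₂ F s y = ψ₁ s.1 (ψ₂ s.2 (F y)) := rfl

theorem famT_zero (h₁ : IsFlow n N ψ₁) (h₂ : IsFlow n N ψ₂) {r : ℕ∞} (F : DiffM n N r) :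
    famT h₁ h₂ F 0 = F := by
  apply Diffeomorph.ext
  intro y
  rw [famT_apply]
  show ψ₁ 0 (ψ₂ 0 (F y)) = F y
  rw [h₁.zero, h₂.zero]

theorem famT_isFam (h₁ : IsFlow n N ψ₁) (h₂ : IsFlow n N ψ₂) {r : ℕ∞} (F : DiffM n N r) :
    IsFam n N r (famT h₁ h₂ F) := by
  intro y
  have hr : (r : WithTop ℕ∞) ≤ ∞ := by exact_mod_cast le_top
  have h1 : ContMDiffAt (𝓘(ℝ, ℝ × ℝ).prod (𝓡 n)) (𝓡 n) r (fun q : (ℝ × ℝ) × N => F q.2)
      ((0 : ℝ × ℝ), y) := F.contMDiff.contMDiffAt.comp _ contMDiffAt_snd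
  have h2 : ContMDiffAt (𝓘(ℝ, ℝ × ℝ).prod (𝓡 n)) 𝓘(ℝ, ℝ) r (fun q : (ℝ × ℝ) × N => q.1.2)
      ((0 : ℝ × ℝ), y) := by
    have : ContMDiff 𝓘(ℝ, ℝ × ℝ) 𝓘(ℝ, ℝ) r (fun q : ℝ × ℝ => q.2) := contDiff_snd.contMDiff
    exact this.contMDiffAt.comp _ contMDiffAt_fst
  have h2' : ContMDiffAt (𝓘(ℝ, ℝ × ℝ).prod (𝓡 n)) 𝓘(ℝ, ℝ) r (fun q : (ℝ × ℝ) × N => q.1.1)
      ((0 : ℝ × ℝ), y) := by
    have : ContMDiff 𝓘(ℝ, ℝ × ℝ) 𝓘(ℝ, ℝ) r (fun q : ℝ × ℝ => q.1) := contDiff_fst.contMDiff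
    exact this.contMDiffAt.comp _ contMDiffAt_fst
  have h3 : ContMDiffAt (𝓘(ℝ, ℝ × ℝ).prod (𝓡 n)) (𝓡 n) r
      (fun q : (ℝ × ℝ) × N => ψ₂ q.1.2 (F q.2)) ((0 : ℝ × ℝ), y) :=
    ContMDiffAt.comp (g := fun q : ℝ × N => ψ₂ q.1 q.2)
      (f := fun q : (ℝ × ℝ) × N => ((q.1.2, F q.2) : ℝ × N)) _
      (h₂.smooth.of_le hr).contMDiffAt (h2.prodMk h1)
  exact ContMDiffAt.comp (g := fun q : ℝ × N => ψ₁ q.1 q.2)
    (f := fun q : (ℝ × ℝ) × N => ((q.1.1, ψ₂ q.1.2 (F q.2)) : ℝ × N)) _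
    (h₁.smooth.of_le hr).contMDiffAt (h2'.prodMk h3)

theorem bsum_abs {X : Type*} {f : X → X} {τ : X → ℝ} {B : ℝ} (hB : ∀ x, |τ x| ≤ B) (i : ℕ)
    (x : X) : |bsum f τ i x| ≤ B * i := by
  induction i with
  | zero => simp [bsum_zero]
  | succ i ih =>
    rw [bsum_succ]
    have h1 := hB (f^[i] x)
    have h2 := abs_add_le (bsum f τ i x) (τ (f^[i] x))
    push_cast
    linarith

theorem exists_bound {X : Type*} [TopologicalSpace X] [CompactSpace X] {τ : X → ℝ}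
    (hτ : Continuous τ) : ∃ B : ℝ, 0 ≤ B ∧ ∀ x, |τ x| ≤ B := by
  obtain ⟨B, hB⟩ := (isCompact_univ.image hτ).isBounded.exists_norm_le
  refine ⟨|B|, abs_nonneg _, fun x' => ?_⟩
  have h1 := hB (τ x') (mem_image_of_mem _ (mem_univ x'))
  rw [Real.norm_eq_abs] at h1
  exact h1.trans (le_abs_self B)

theorem two {r : ℕ∞} (hr : 1 ≤ r) (F : DiffM n N r) (h₁ : IsFlow n N ψ₁) (h₂ : IsFlow n N ψ₂)
    {Θ : X × (Y₁ × Y₂) → N} (hΘ : Topology.IsEmbedding Θ) {f : X ≃ₜ X} {τ₁ τ₂ : X → ℝ}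
    (hτ₁ : Continuous τ₁) (hτ₂ : Continuous τ₂) {φ₁ : Flow ℝ Y₁} {φ₂ : Flow ℝ Y₂}
    (hsp₁ : WeakSpec φ₁) (hmo₁ : ManyOrbits φ₁) (hsp₂ : WeakSpec φ₂) (hmo₂ : ManyOrbits φ₂)
    (hflow₁ : ∀ t x y₁ y₂, ψ₁ t (Θ (x, (y₁, y₂))) = Θ (x, (φ₁ t y₁, y₂)))
    (hflow₂ : ∀ t x y₁ y₂, ψ₂ t (Θ (x, (y₁, y₂))) = Θ (x, (y₁, φ₂ t y₂)))
    (hF : ∀ x y₁ y₂, F (Θ (x, (y₁, y₂))) = Θ (f x, (φ₁ (τ₁ x) y₁, φ₂ (τ₂ x) y₂)))
    (x : X) (y₁ : Y₁) (y₂ : Y₂) (hx : NonWand f x) : Closable n N r F (Θ (x, (y₁, y₂))) := by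
  refine closing_of_choice hr F (famT h₁ h₂ F) (famT_isFam h₁ h₂ F) (famT_zero h₁ h₂ F) hΘ
    (fun s i x' y => (φ₁ (tt (fun j => bsum f τ₁ j x') s.1 i) y.1,
      φ₂ (tt (fun j => bsum f τ₂ j x') s.2 i) y.2)) ?_ x (y₁, y₂) hx ?_
  · rintro s i x' ⟨a, b⟩
    induction i with
    | zero =>
      simp only [tt, bsum_zero, Nat.cast_zero, zero_mul, add_zero]
      show Θ (x', (a, b)) = Θ (x', (φ₁ 0 a, φ₂ 0 b))
      rw [flow_zero, flow_zero]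
    | succ i ih =>
      rw [Function.iterate_succ_apply', ih, famT_apply, hF, hflow₂, hflow₁,
        Function.iterate_succ_apply']
      simp only [tt, bsum_succ]
      rw [← flow_add, ← flow_add, ← flow_add, ← flow_add]
      congr 3
      · congr 1
        push_cast
        ring
      · congr 1
        push_cast
        ring
  · intro κ hκ η hη
    obtain ⟨ρ₁, R₁, B₁, hρ₁, hR₁, hB₁, hflex₁⟩ := flex_two hsp₁ hmo₁ y₁ η hη
    obtain ⟨ρ₂, R₂, B₂, hρ₂, hR₂, hB₂, hflex₂⟩ := flex_two hsp₂ hmo₂ y₂ η hη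
    obtain ⟨C₁, hC₁, hb₁⟩ := exists_bound hτ₁
    obtain ⟨C₂, hC₂, hb₂⟩ := exists_bound hτ₂
    obtain ⟨L, hL⟩ := exists_nat_ge ((16 * (C₁ + κ) + 16 * (C₂ + κ)) / κ)
    rw [div_le_iff₀ hκ] at hL
    have hL1 : 16 * (C₁ + κ) ≤ κ * L := by nlinarith
    have hL2 : 16 * (C₂ + κ) ≤ κ * L := by nlinarith
    set RR := (R₁ + B₁ + L * B₁) + (R₂ + B₂ + L * B₂) with hRR
    have hRR1 : R₁ + B₁ + L * B₁ ≤ RR := by
      have : 0 ≤ R₂ + B₂ + L * B₂ := by positivity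
      linarith
    have hRR2 : R₂ + B₂ + L * B₂ ≤ RR := by
      have : 0 ≤ R₁ + B₁ + L * B₁ := by positivity
      linarith
    obtain ⟨R', hR'1, hch⟩ := choose_s hκ (R := RR) (by positivity) L
    obtain ⟨M, hM⟩ := exists_nat_gt ((2 * B₁ + 16 * R₁ + (2 * B₂ + 16 * R₂)) / κ)
    rw [div_lt_iff₀ hκ] at hM
    refine ⟨min ρ₁ ρ₂, lt_min hρ₁ hρ₂, 2 * R' + M, by omega, fun m hm x' => ?_⟩
    have hmM : (M : ℝ) ≤ m := by exact_mod_cast (by omega : M ≤ m)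
    have hκM : M * κ ≤ κ * m := by nlinarith
    obtain ⟨s₁, s₂, hs₁, hs₂, hT₁, hT₂, hgood⟩ := hch m (by omega) (fun j => bsum f τ₁ j x')
      (fun j => bsum f τ₂ j x')
    obtain ⟨a₁, p₁, ha₁, hp₁, hper₁, hfar₁⟩ := adjust hκ hR₁ hB₁ hC₁ hflex₁ hL1
      (by omega : 1 ≤ m) (by linarith) (by linarith) (S := fun j => bsum f τ₁ j x')
      (fun i _ => bsum_abs hb₁ i x') hs₁ hT₁
    obtain ⟨a₂, p₂, ha₂, hp₂, hper₂, hfar₂⟩ := adjust hκ hR₂ hB₂ hC₂ hflex₂ hL2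
      (by omega : 1 ≤ m) (by linarith) (by linarith) (S := fun j => bsum f τ₂ j x')
      (fun i _ => bsum_abs hb₂ i x') hs₂ hT₂
    refine ⟨(a₁, a₂), (p₁, p₂), ?_, ?_, ?_, fun i hi hi' => ?_⟩
    · rw [Prod.norm_def]
      exact max_lt ha₁ ha₂
    · rw [Prod.dist_eq]
      exact max_lt hp₁ hp₂
    · exact Prod.ext hper₁ hper₂
    · rw [Prod.dist_eq]
      rcases hgood i (by omega) (by omega) with h | h
      · refine (min_le_left _ _).trans (le_trans ?_ (le_max_left _ _))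
        exact hfar₁ i (by omega) fun l hl => lt_of_le_of_lt hRR1 (h l hl)
      · refine (min_le_right _ _).trans (le_trans ?_ (le_max_right _ _))
        exact hfar₂ i (by omega) fun l hl => lt_of_le_of_lt hRR2 (h l hl)

end

end Pool.Agent.Q100.Spec
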